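import Pool.Agent.P.MP_2c7719_nt.Rz.St

/-! Lower bound for the sum of `β`-th powers of a near solution. -/

namespace Pool.Agent.P.MP_2c7719_nt.Rz

namespace AP

theorem t1 {p u v : ℝ} (hp : 1 ≤ p) (hu : 0 < u) (hv : 0 < v) :
    p * u ^ (p - 1) * (v - u) ≤ v ^ p - u ^ p := by
  have h := one_add_mul_self_le_rpow_one_add (s := v / u - 1)
    (by have := div_pos hv hu; linarith) hp
  have e : 1 + (v / u - 1) = v / u := by ring
  have hU : 0 < u ^ p := Real.rpow_pos_of_pos hu p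
  rw [e, Real.div_rpow hv.le hu.le, le_div_iff₀ hU] at h
  rw [Real.rpow_sub_one hu.ne']
  have : p * (u ^ p / u) * (v - u) = (1 + p * (v / u - 1)) * u ^ p - u ^ p := by
    field_simp; ring
  linarith

theorem t2 {s α u v : ℝ} (hs : 0 < s) (hα : s ≤ α) (hu : 0 < u) (hv : 0 < v) :
    v ^ s - u ^ s ≤ s / α * u ^ (s - α) * (v ^ α - u ^ α) := by
  have hα0 : 0 < α := lt_of_lt_of_le hs hα
  have hU : 0 < u ^ α := Real.rpow_pos_of_pos hu α
  have hV : 0 < v ^ α := Real.rpow_pos_of_pos hv α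
  have hUs : 0 < u ^ s := Real.rpow_pos_of_pos hu s
  have h := rpow_one_add_le_one_add_mul_self (s := v ^ α / u ^ α - 1) (p := s / α)
    (by have := div_pos hV hU; linarith) (by positivity) (by rwa [div_le_one hα0])
  have e : 1 + (v ^ α / u ^ α - 1) = v ^ α / u ^ α := by ring
  have e2 : α * (s / α) = s := by field_simp
  rw [e, Real.div_rpow hV.le hU.le, ← Real.rpow_mul hv.le, ← Real.rpow_mul hu.le, e2,
    div_le_iff₀ hUs] at h
  rw [Real.rpow_sub hu]
  have : s / α * (u ^ s / u ^ α) * (v ^ α - u ^ α) =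
      (1 + s / α * (v ^ α / u ^ α - 1)) * u ^ s - u ^ s := by
    field_simp; ring
  linarith

theorem t3 {r u v : ℝ} (hr : r ≤ -1) (hu : 0 < u) (huv : u ≤ v) :
    v ^ r * (v - u) / v ≤ u ^ r - v ^ r := by
  have hv : 0 < v := lt_of_lt_of_le hu huv
  have hV : 0 < v ^ r := Real.rpow_pos_of_pos hv r
  have h1 : (u / v) ^ (-1 : ℝ) ≤ (u / v) ^ r :=
    Real.rpow_le_rpow_of_exponent_ge (div_pos hu hv) (by rwa [div_le_one hv]) hr
  rw [Real.rpow_neg_one, inv_div, Real.div_rpow hu.le hv.le, le_div_iff₀ hV] at h1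
  have h2 : 1 + (v - u) / v ≤ v / u := by
    rw [le_div_iff₀ hu]
    have : (v - u) / v * u ≤ v - u := by
      rw [div_mul_eq_mul_div, div_le_iff₀ hv]; nlinarith
    linarith
  have h3 := mul_le_mul_of_nonneg_right h2 hV.le
  have : (1 + (v - u) / v) * v ^ r = v ^ r + v ^ r * (v - u) / v := by ring
  linarith

theorem cmp {α r b x : ℝ} (hb : 0 < b) (hx : b ≤ 4 * x) (hr : 0 ≤ r) (hrα : r ≤ α) :
    b ^ r ≤ 4 ^ α * x ^ r := by
  have hx0 : 0 < x := by linarith
  calc b ^ r ≤ (4 * x) ^ r := Real.rpow_le_rpow hb.le hx hr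
    _ = 4 ^ r * x ^ r := Real.mul_rpow (by norm_num) hx0.le
    _ ≤ 4 ^ α * x ^ r := by
        gcongr
        norm_num

theorem big {α : ℝ} (hα : 2 ≤ α) : (16 : ℝ) ≤ 4 ^ α := by
  have : (4 : ℝ) ^ (2 : ℝ) ≤ 4 ^ α := Real.rpow_le_rpow_of_exponent_le (by norm_num) hα
  rw [Real.rpow_two] at this
  linarith

theorem small {α t b x : ℝ} (ht : 0 ≤ t) (hα : t + 2 ≤ α) (hb : 4 ^ α ≤ b) (hx : b ≤ 4 * x) :
    b ^ t ≤ x ^ (α - 1) := by
  have h16 := big (α := α) (by linarith)
  have hb0 : 0 < b := by linarith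
  have h1 : b ^ (t + 1) ≤ b ^ (α - 1) :=
    Real.rpow_le_rpow_of_exponent_le (by linarith) (by linarith)
  rw [Real.rpow_add_one hb0.ne'] at h1
  have h2 := cmp (α := α) (r := α - 1) hb0 hx (by linarith) (by linarith)
  have h3 : 0 < x ^ (α - 1) := Real.rpow_pos_of_pos (by linarith) _
  have h4 : b ^ t * b ≤ x ^ (α - 1) * b := by nlinarith
  exact le_of_mul_le_mul_right h4 hb0

theorem s0 {α t a b c d : ℝ} (ht : 0 ≤ t) (hα : t + 2 ≤ α) (hb : 4 ^ α ≤ b) (ha : 0 < a)
    (hac : a ≤ c) (hcd : c ≤ d) (h : |a ^ α + b ^ α - c ^ α - d ^ α| ≤ b ^ t) : b ≤ 2 * d := by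
  have h16 := big (α := α) (by linarith)
  have hb0 : 0 < b := by linarith
  by_contra hc
  push Not at hc
  have hd : 0 < d := by linarith
  have h1 : b ^ (t + 1) ≤ b ^ α := Real.rpow_le_rpow_of_exponent_le (by linarith) (by linarith)
  rw [Real.rpow_add_one hb0.ne'] at h1
  have h2 : c ^ α ≤ d ^ α := Real.rpow_le_rpow (by linarith) hcd (by linarith)
  have h3 : (2 * d) ^ α ≤ b ^ α := Real.rpow_le_rpow (by linarith) hc.le (by linarith)
  rw [Real.mul_rpow (by norm_num) hd.le] at h3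
  have h4 : (2 : ℝ) ^ (2 : ℝ) ≤ 2 ^ α := Real.rpow_le_rpow_of_exponent_le (by norm_num) (by linarith)
  rw [Real.rpow_two] at h4
  have hA : 0 < a ^ α := Real.rpow_pos_of_pos ha _
  have hD : 0 < d ^ α := Real.rpow_pos_of_pos hd _
  have hS : 0 < b ^ t := Real.rpow_pos_of_pos hb0 _
  have h5 := (abs_le.1 h).2
  nlinarith

theorem low {s b x : ℝ} (hs : 1 ≤ s) (hb : 0 < b) (h1 : b ≤ 2 * x) (h2 : x ≤ b) (α : ℝ) :
    (b / 2) ^ (s - 1) / b ≤ x ^ (s - α) / x * x ^ (α - 1) := by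
  have hx : 0 < x := by linarith
  have e : x ^ (s - α) / x * x ^ (α - 1) = x ^ (s - 1) / x := by
    rw [show s - 1 = (s - α) + (α - 1) by ring, Real.rpow_add hx]; ring
  rw [e]
  have h3 : (b / 2) ^ (s - 1) ≤ x ^ (s - 1) :=
    Real.rpow_le_rpow (by positivity) (by linarith) (by linarith)
  have h4 : 0 < x ^ (s - 1) := Real.rpow_pos_of_pos hx _
  gcongr

theorem alg {α b c d e A B C D E σ P c' d' e' d1 e1 S : ℝ} (hα : 2 ≤ α) (hb0 : 0 < b) (hd : 0 < d)
    (hcd : c ≤ d) (hdb : d + 1 ≤ b) (he : e = (b + d) / 2) (hσ : σ = A + B - C - D) (hσ2 : σ ≤ S)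
    (b1 : d' * (d - c) / d ≤ c' - d') (b2 : e' * (e - d) / e ≤ d' - e')
    (c1 : α * d1 * (b - d) ≤ B - D) (c2 : α * e1 * (b - e) ≤ B - E) (c3 : S ≤ d1)
    (l1 : P / b ≤ d' / d * d1) (l2 : P / b ≤ e' / e * e1) (hP : 1 ≤ P) (hd' : 0 < d')
    (he' : 0 < e') (hd1 : 0 < d1) (he1 : 0 < e1) (err : d' * S ≤ 1 / (8 * b)) :
    α * (P / 8 * ((b - d) * (b - c) / b)) ≤ c' * (C - A) - e' * (B - E) - d' * (E - D) := by
  have hα0 : 0 < α := by linarith
  have he0 : 0 < e := by linarith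
  have m1 : α / 2 * d1 * (b - d) ≤ C - A := by
    have : d1 ≤ α / 2 * d1 * (b - d) := by
      have : 1 * d1 * 1 ≤ α / 2 * d1 * (b - d) := by gcongr <;> linarith
      linarith
    linarith
  have m2 : d' * (d - c) / d * (α / 2 * d1 * (b - d)) ≤ (c' - d') * (C - A) := by
    have : 0 ≤ d' * (d - c) / d := by have : 0 ≤ d - c := by linarith
                                      positivity
    have : 0 ≤ α / 2 * d1 * (b - d) := by have : 0 ≤ b - d := by linarith
                                          positivity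
    exact mul_le_mul b1 m1 this (by linarith)
  have m3 : e' * (e - d) / e * (α * e1 * (b - e)) ≤ (d' - e') * (B - E) := by
    have : 0 ≤ e' * (e - d) / e := by have : 0 ≤ e - d := by linarith
                                      positivity
    have : 0 ≤ α * e1 * (b - e) := by have : 0 ≤ b - e := by linarith
                                      positivity
    exact mul_le_mul b2 c2 this (by linarith)
  have m4 : α * (P / b * ((d - c) * (b - d) / 2)) ≤ d' * (d - c) / d * (α / 2 * d1 * (b - d)) := by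
    have h1 : 0 ≤ (d - c) * (b - d) / 2 := by
      have : 0 ≤ d - c := by linarith
      have : 0 ≤ b - d := by linarith
      positivity
    calc _ ≤ α * (d' / d * d1 * ((d - c) * (b - d) / 2)) := by gcongr
      _ = _ := by ring
  have m5 : α * (P / b * ((b - d) ^ 2 / 4)) ≤ e' * (e - d) / e * (α * e1 * (b - e)) := by
    calc _ ≤ α * (e' / e * e1 * ((b - d) ^ 2 / 4)) := by gcongr
      _ = e' / e * e1 * α * ((e - d) * (b - e)) := by rw [he]; ring
      _ = _ := by ring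
  obtain ⟨W, hW⟩ : ∃ W, W = (b - d) * (b - c) / b := ⟨_, rfl⟩
  have w1 : 1 / b ≤ W := by
    rw [hW]; gcongr
    nlinarith
  have w2 : P / 4 * W ≤ P / b * ((d - c) * (b - d) / 2) + P / b * ((b - d) ^ 2 / 4) := by
    have : P / b * ((d - c) * (b - d) / 2) + P / b * ((b - d) ^ 2 / 4) - P / 4 * W =
        P / b * ((d - c) * (b - d) / 4) := by rw [hW]; ring
    have h1 : 0 ≤ d - c := by linarith
    have h2 : 0 ≤ b - d := by linarith
    have : 0 ≤ P / b * ((d - c) * (b - d) / 4) := by positivity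
    linarith
  have w0 : 0 ≤ W := le_trans (by positivity) w1
  have w3 : d' * σ ≤ P / 8 * W := by
    have : d' * σ ≤ d' * S := by gcongr
    have h2 : 1 / (8 * b) = 1 / 8 * (1 / b) := by field_simp
    have h3 : 1 / 8 * (1 / b) ≤ P / 8 * W := by gcongr
    linarith
  have w4 : 0 ≤ P / 8 * W := by positivity
  rw [← hW]
  have e1 : c' * (C - A) - e' * (B - E) - d' * (E - D) =
      (c' - d') * (C - A) + (d' - e') * (B - E) - d' * σ := by rw [hσ]; ring
  have e2 := mul_le_mul_of_nonneg_left w2 hα0.le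
  have e3 : 1 * (P / 8 * W) ≤ α * (P / 8 * W) := by gcongr; linarith
  rw [e1]; linarith

theorem s1 {α t s a b c d : ℝ} (ht : 0 ≤ t) (hs : 1 ≤ s) (hα : s + t + 3 ≤ α) (hb : 4 ^ α ≤ b)
    (ha : 0 < a) (hac : a ≤ c) (hcd : c ≤ d) (hdb : d + 1 ≤ b)
    (h : |a ^ α + b ^ α - c ^ α - d ^ α| ≤ b ^ t) :
    (b / 2) ^ (s - 1) / 8 * ((b - d) * (b - c) / b) ≤ c ^ s + d ^ s - a ^ s - b ^ s := by
  have h16 := big (α := α) (by linarith)
  have hb0 : 0 < b := by linarith
  have h0 := s0 ht (by linarith) hb ha hac hcd h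
  have hc : 0 < c := by linarith
  have hd : 0 < d := by linarith
  have hα0 : 0 < α := by linarith
  obtain ⟨e, he⟩ : ∃ e, e = (b + d) / 2 := ⟨_, rfl⟩
  have he0 : 0 < e := by linarith
  have a1 := t2 (s := s) (α := α) (by linarith) (by linarith) hc ha
  have a2 := t2 (s := s) (α := α) (by linarith) (by linarith) he0 hb0
  have a3 := t2 (s := s) (α := α) (by linarith) (by linarith) hd he0
  have b1 := t3 (r := s - α) (by linarith) hc hcd
  have b2 := t3 (r := s - α) (by linarith) hd (show d ≤ e by linarith)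
  have c1 := t1 (p := α) (by linarith) hd hb0
  have c2 := t1 (p := α) (by linarith) he0 hb0
  have c3 := small (x := d) ht (by linarith) hb (by linarith)
  have l1 := low hs hb0 h0 (by linarith) α
  have l2 := low (x := e) hs hb0 (by linarith) (by linarith) α
  have hP : 1 ≤ (b / 2) ^ (s - 1) := Real.one_le_rpow (by linarith) (by linarith)
  have hd' : 0 < d ^ (s - α) := Real.rpow_pos_of_pos hd _
  have he' : 0 < e ^ (s - α) := Real.rpow_pos_of_pos he0 _
  have hd1 : 0 < d ^ (α - 1) := Real.rpow_pos_of_pos hd _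
  have he1 : 0 < e ^ (α - 1) := Real.rpow_pos_of_pos he0 _
  have hS : 0 < b ^ t := Real.rpow_pos_of_pos hb0 _
  have err : d ^ (s - α) * b ^ t ≤ 1 / (8 * b) := by
    have k1 := cmp (α := α) (r := α - s) (x := d) hb0 (by linarith) (by linarith) (by linarith)
    have k2 : b ^ (t + (3 : ℕ)) ≤ b ^ (α - s) :=
      Real.rpow_le_rpow_of_exponent_le (by linarith) (by push_cast; linarith)
    rw [Real.rpow_add_natCast hb0.ne'] at k2
    have k3 : 0 < d ^ (α - s) := Real.rpow_pos_of_pos hd _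
    rw [show s - α = -(α - s) by ring, Real.rpow_neg hd.le, inv_mul_eq_div, div_le_div_iff₀ k3
      (by positivity)]
    have k4 : b ^ t * b ^ 2 * b ≤ d ^ (α - s) * b := by nlinarith
    have k5 := le_of_mul_le_mul_right k4 hb0
    have k6 : b ^ t * (8 * b) ≤ b ^ t * b ^ 2 := by gcongr; nlinarith
    linarith
  have key := alg (by linarith) hb0 hd hcd hdb he rfl (abs_le.1 h).2 b1 b2 c1 c2 c3 l1 l2 hP hd'
    he' hd1 he1 err
  have w4 : 0 ≤ (b / 2) ^ (s - 1) / 8 * ((b - d) * (b - c) / b) := by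
    have : 0 ≤ b - d := by linarith
    have : 0 ≤ b - c := by linarith
    positivity
  generalize (b / 2) ^ (s - 1) / 8 * ((b - d) * (b - c) / b) = X at *
  have k2 := mul_le_mul_of_nonneg_left key (show 0 ≤ s / α by positivity)
  have k3 : s / α * (α * X) = s * X := by field_simp
  have k4 : 1 * X ≤ s * X := by gcongr
  linarith

theorem up {α t a b c d : ℝ} (hα : 1 ≤ α) (hb : 0 < b) (hd : 0 < d)
    (h : |a ^ α + b ^ α - c ^ α - d ^ α| ≤ b ^ t) :
    c ^ α - a ^ α ≤ α * b ^ (α - 1) * (b - d) + b ^ t := by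
  have := t1 hα hb hd
  have := (abs_le.1 h).1
  linarith

theorem s2 {α t a b c d : ℝ} (ht : 0 ≤ t) (hα : t + 3 ≤ α) (hb : 4 ^ α ≤ b)
    (ha : 0 < a) (hac : a ≤ c) (hcd : c ≤ d) (hdb : d + 1 ≤ b)
    (h : |a ^ α + b ^ α - c ^ α - d ^ α| ≤ b ^ t) (h2 : d ≤ 2 * a) (hw : 1 ≤ c + d - a - b) :
    c + d - a - b ≤ 16 * α * 4 ^ α * (2 + 4 ^ α) * ((b - d) * (b - c) / b) := by
  have h16 := big (α := α) (by linarith)
  have hb0 : 0 < b := by linarith
  have h0 := s0 ht (by linarith) hb ha hac hcd h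
  have u1 := up (α := α) (by linarith) hb0 (by linarith) h
  have u2 := t1 (p := α) (by linarith) ha (show 0 < c by linarith)
  have u3 := small (x := a) ht (by linarith) hb (by linarith)
  have u4 := cmp (α := α) (r := α - 1) (x := a) hb0 (by linarith) (by linarith) (by linarith)
  have u5 := t1 (p := α - 1) (by linarith) hb0 ha
  rw [Real.rpow_sub_one hb0.ne' (α - 1)] at u5
  have hP : 0 < a ^ (α - 1) := Real.rpow_pos_of_pos ha _
  have hQ : 0 < b ^ (α - 1) := Real.rpow_pos_of_pos hb0 _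
  generalize a ^ (α - 1) = P at *
  generalize b ^ (α - 1) = Q at *
  generalize (4 : ℝ) ^ α = M at *
  have hbd : 0 ≤ b - d := by linarith
  have hba : 0 ≤ b - a := by linarith
  have hbc : 0 ≤ b - c := by linarith
  have hα0 : 0 < α := by linarith
  have hM : 0 < M := by linarith
  have v1 : P * (c - a) ≤ Q * (b - d) + P / 2 := by
    have : α * (P * (c - a)) ≤ α * (Q * (b - d) + P / 2) := by nlinarith
    exact le_of_mul_le_mul_left this (by linarith)
  have v2 : c - a ≤ M * (b - d) + 1 / 2 := by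
    have : P * (c - a) ≤ P * (M * (b - d) + 1 / 2) := by nlinarith
    exact le_of_mul_le_mul_left this hP
  have v3 : b - a ≤ (2 + M) * (b - c) := by nlinarith
  have v4 : Q - P ≤ α * (M * P / b) * ((2 + M) * (b - c)) := by
    calc Q - P ≤ (α - 1) * (Q / b) * (b - a) := by linarith
      _ ≤ _ := by gcongr; linarith
  have v5 : P * (c + d - a - b) ≤ 2 * ((Q - P) * (b - d)) := by nlinarith
  have v6 : (Q - P) * (b - d) ≤ α * (M * P / b) * ((2 + M) * (b - c)) * (b - d) := by gcongr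
  have v7 : P * (c + d - a - b) ≤ P * (2 * (α * M * (2 + M) * ((b - d) * (b - c) / b))) := by
    have : α * (M * P / b) * ((2 + M) * (b - c)) * (b - d) =
      P * (α * M * (2 + M) * ((b - d) * (b - c) / b)) := by ring
    linarith
  have v8 := le_of_mul_le_mul_left v7 hP
  have v9 : 0 ≤ α * M * (2 + M) * ((b - d) * (b - c) / b) := by positivity
  linarith

theorem s3 {α t a b c d : ℝ} (ht : 0 ≤ t) (hα : t + 3 ≤ α) (hb : 4 ^ α ≤ b)
    (ha : 0 < a) (hac : a ≤ c) (hcd : c ≤ d) (hdb : d + 1 ≤ b)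
    (h : |a ^ α + b ^ α - c ^ α - d ^ α| ≤ b ^ t) (h2 : 2 * a ≤ d) :
    b - d ≤ 16 * α * 4 ^ α * (2 + 4 ^ α) * ((b - d) * (b - c) / b) := by
  have h16 := big (α := α) (by linarith)
  have hb0 : 0 < b := by linarith
  have h0 := s0 ht (by linarith) hb ha hac hcd h
  have hc : 0 < c := by linarith
  have hbd : 0 ≤ b - d := by linarith
  have hbc : 0 ≤ b - c := by linarith
  have k : b ≤ 16 * α * 4 ^ α * (b - c) := by
    by_cases h3 : c ≤ 3 * d / 4
    · have : 4 * 1 * 1 * (b - c) ≤ 16 * α * 4 ^ α * (b - c) := by gcongr <;> linarith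
      linarith
    · push Not at h3
      have u1 := up (α := α) (by linarith) hb0 (by linarith) h
      have u3 := small (x := b) ht (by linarith) hb (by linarith)
      have u4 := cmp (α := α) (r := α - 1) (x := c) hb0 (by linarith) (by linarith) (by linarith)
      have u5 : a ^ (α - 1) ≤ c ^ (α - 1) := Real.rpow_le_rpow ha.le hac (by linarith)
      have u6 : c ^ α = c ^ (α - 1) * c := by rw [← Real.rpow_add_one hc.ne']; ring_nf
      have u7 : a ^ α = a ^ (α - 1) * a := by rw [← Real.rpow_add_one ha.ne']; ring_nf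
      have hP : 0 < c ^ (α - 1) := Real.rpow_pos_of_pos hc _
      have hQ : 0 < b ^ (α - 1) := Real.rpow_pos_of_pos hb0 _
      rw [u6, u7] at u1
      generalize c ^ (α - 1) = P at *
      generalize b ^ (α - 1) = Q at *
      generalize a ^ (α - 1) = R at *
      generalize (4 : ℝ) ^ α = M at *
      have hα0 : 0 < α := by linarith
      have hM : 0 < M := by linarith
      have v1 : P * (b / 8) ≤ P * c - R * a := by nlinarith
      have v2 : 1 * Q * 1 ≤ α * Q * (b - d) := by gcongr <;> linarith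
      have v3 : α * Q * (b - d) ≤ α * (M * P) * (b - c) := by gcongr
      have v4 : P * b ≤ P * (16 * α * M * (b - c)) := by linarith
      exact le_of_mul_le_mul_left v4 hP
  have k2 : 16 * α * 4 ^ α * (b - c) * 1 ≤ 16 * α * 4 ^ α * (b - c) * (2 + 4 ^ α) := by
    have : 0 ≤ α := by linarith
    gcongr; linarith
  rw [← mul_div_assoc, le_div_iff₀ hb0]
  nlinarith

end AP

theorem pA : S_A := by
  intro β hβ T α hα
  have hT : (0 : ℝ) ≤ T := Nat.cast_nonneg T
  have hα0 : 0 < α := by linarith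
  obtain ⟨K, hK⟩ : ∃ K : ℝ, K = 16 * α * 4 ^ α * (2 + 4 ^ α) := ⟨_, rfl⟩
  have hK0 : 0 < K := by rw [hK]; positivity
  refine ⟨(2 ^ (β - 1) * 8 * K)⁻¹, by positivity, ⌈(4 : ℝ) ^ α⌉₊, fun q hq hN h => ?_⟩
  obtain ⟨h1, h2, h3, h4⟩ := hq
  have hb : (4 : ℝ) ^ α ≤ q 1 := Nat.ceil_le.1 hN
  have ha : (0 : ℝ) < q 0 := by exact_mod_cast h1
  have hac : (q 0 : ℝ) ≤ q 2 := by exact_mod_cast h2.le
  have hcd : (q 2 : ℝ) ≤ q 3 := by exact_mod_cast h3
  have hdb : (q 3 : ℝ) + 1 ≤ q 1 := by exact_mod_cast h4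
  rw [← Real.rpow_natCast] at h
  unfold sg at h ⊢
  have hb0 : (0 : ℝ) < q 1 := by linarith
  have h0 := AP.s0 hT (by linarith) hb ha hac hcd h
  have a1 := AP.s1 hT le_rfl (by linarith) hb ha hac hcd hdb h
  have a2 := AP.s1 hT hβ.le hα hb ha hac hcd hdb h
  have hW : (0 : ℝ) < ((q 1 : ℝ) - q 3) * (q 1 - q 2) / q 1 :=
    div_pos (mul_pos (by linarith) (by linarith)) hb0
  simp only [sub_self, Real.rpow_zero, Real.rpow_one] at a1
  have a3 : q 0 + q 1 < q 2 + q 3 := by
    have : (q 0 : ℝ) + q 1 < q 2 + q 3 := by linarith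
    exact_mod_cast this
  have a4 : (1 : ℝ) ≤ q 2 + q 3 - q 0 - q 1 := by
    have : (q 0 : ℝ) + q 1 + 1 ≤ q 2 + q 3 := by exact_mod_cast a3
    linarith
  have a5 : (wt q : ℝ) ≤ K * (((q 1 : ℝ) - q 3) * (q 1 - q 2) / q 1) := by
    unfold wt
    split_ifs with h5
    · have := AP.s2 hT (by linarith) hb ha hac hcd hdb h (by exact_mod_cast h5) a4
      rw [Nat.cast_sub a3.le, hK]; push_cast; linarith
    · have := AP.s3 hT (by linarith) hb ha hac hcd hdb h
        (by exact_mod_cast (not_le.1 h5).le)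
      rw [Nat.cast_sub h4.le, hK]; linarith
  refine ⟨by exact_mod_cast h0, by unfold wt; split_ifs <;> omega, ?_⟩
  rw [Real.div_rpow hb0.le (by norm_num)] at a2
  refine le_trans ?_ (neg_le_abs _)
  calc _ ≤ (2 ^ (β - 1) * 8 * K)⁻¹ * (q 1 : ℝ) ^ (β - 1) *
        (K * (((q 1 : ℝ) - q 3) * (q 1 - q 2) / q 1)) := by gcongr
    _ = (q 1 : ℝ) ^ (β - 1) / 2 ^ (β - 1) / 8 * (((q 1 : ℝ) - q 3) * (q 1 - q 2) / q 1) := by
        field_simp
    _ ≤ _ := by linarith

end Pool.Agent.P.MP_2c7719_nt.Rz
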