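import Pool.Agent.P.MP_2c7719_nt.Rz.St

/-! The weighted count of near solutions in a dyadic block. -/

namespace Pool.Agent.P.MP_2c7719_nt.Rz

open Filter Finset

namespace BP

lemma fib {ι κ : Type*} [DecidableEq κ] (S : Finset ι) (f : ι → κ) (w : ι → ℝ) {K b : ℝ}
    (hc : ((S.image f).card : ℝ) ≤ K) (h0 : 0 ≤ b)
    (hb : ∀ y, ∑ x ∈ S.filter (fun x => f x = y), w x ≤ b) : ∑ x ∈ S, w x ≤ K * b := by
  rw [← sum_fiberwise_of_maps_to (fun x hx => mem_image_of_mem f hx)]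
  refine (sum_le_card_nsmul _ _ b fun y _ => hb y).trans ?_
  rw [nsmul_eq_mul]
  exact mul_le_mul_of_nonneg_right hc h0

lemma harm {ι : Type*} (S : Finset ι) (w : ι → ℕ) (m : ℕ) (inj : Set.InjOn w S)
    (h : ∀ x ∈ S, 1 ≤ w x ∧ w x ≤ 2 ^ (m + 2)) : ∑ x ∈ S, (w x : ℝ)⁻¹ ≤ m + 3 := by
  have h1 := harmonic_le_one_add_log (2 ^ (m + 2))
  rw [harmonic_eq_sum_Icc] at h1
  push_cast at h1
  rw [Real.log_pow] at h1
  have h2 : Real.log 2 ≤ 1 := by linarith [Real.log_two_lt_d9]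
  have h3 := mul_le_mul_of_nonneg_left h2 (Nat.cast_nonneg (α := ℝ) (m + 2))
  rw [← sum_image (f := fun n : ℕ => (n : ℝ)⁻¹) inj]
  refine (sum_le_sum_of_subset_of_nonneg (fun n hn => ?_) fun _ _ _ => by positivity).trans
    (h1.trans (by push_cast at h3 ⊢; linarith))
  obtain ⟨x, hx, rfl⟩ := mem_image.1 hn
  exact mem_Icc.2 (h x hx)

lemma patch {ρ : ℝ} (hρ : 1 ≤ ρ) {u v : ℕ} (hu : 1 ≤ u) (hv : 1 ≤ v)
    (h : ⌊ρ ^ 2 * Real.log u⌋₊ = ⌊ρ ^ 2 * Real.log v⌋₊) : |(u : ℝ) / v - 1| ≤ 2 / ρ ^ 2 := by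
  have r1 : 1 ≤ ρ ^ 2 := one_le_pow₀ hρ
  have r0 : 0 < ρ ^ 2 := by linarith
  have a1 := Nat.floor_le (mul_nonneg r0.le (Real.log_natCast_nonneg u))
  have a2 := Nat.floor_le (mul_nonneg r0.le (Real.log_natCast_nonneg v))
  have a3 := Nat.lt_floor_add_one (ρ ^ 2 * Real.log u)
  have a4 := Nat.lt_floor_add_one (ρ ^ 2 * Real.log v)
  rw [h] at a1 a3
  have e : |Real.log u - Real.log v| ≤ 1 / ρ ^ 2 := by
    rw [le_div_iff₀ r0, ← abs_of_pos r0, ← abs_mul, abs_le]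
    constructor <;> linarith
  have e2 := Real.abs_exp_sub_one_le (e.trans ((div_le_one r0).2 r1))
  rw [Real.exp_sub, Real.exp_log (by exact_mod_cast hu), Real.exp_log (by exact_mod_cast hv)] at e2
  refine e2.trans ?_
  rw [div_eq_mul_one_div]
  linarith

lemma od_le {q : Fin 4 → ℕ} (h : Od q) (i : Fin 4) : 1 ≤ q i ∧ q i ≤ q 1 := by
  obtain ⟨a, b, c, d⟩ := h
  fin_cases i <;> simp <;> omega

lemma same {q q' : Fin 4 → ℕ} (h : Od q) (e : q 3 = q' 3) {i : Fin 4}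
    (h1 : (q i : ℚ) / q 3 = (q' i : ℚ) / q' 3) : q i = q' i := by
  have : (q 3 : ℚ) ≠ 0 := by have := (od_le h 3).1; positivity
  rw [← e] at h1
  exact_mod_cast (div_left_inj' this).1 h1

lemma ext4 {q q' : Fin 4 → ℕ} (h0 : q 0 = q' 0) (h1 : q 1 = q' 1) (h2 : q 2 = q' 2)
    (h3 : q 3 = q' 3) : q = q' := by
  funext i; fin_cases i <;> assumption

lemma wt1 {q : Fin 4 → ℕ} (h : Od q) (h1 : 1 ≤ wt q) (h2 : q 3 ≤ 2 * q 0) :
    (wt q : ℚ) = q 3 * ((q 2 : ℚ) / q 3 + 1 - (q 0 : ℚ) / q 3 - (q 1 : ℚ) / q 3) := by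
  have : (q 3 : ℚ) ≠ 0 := by have := (od_le h 3).1; positivity
  rw [wt, if_pos h2] at *
  rw [Nat.cast_sub (by omega)]
  push_cast
  field_simp
  ring

lemma wt2 {q : Fin 4 → ℕ} (h : Od q) (h2 : ¬ q 3 ≤ 2 * q 0) :
    (wt q : ℚ) = q 3 * ((q 1 : ℚ) / q 3 - 1) := by
  have : (q 3 : ℚ) ≠ 0 := by have := (od_le h 3).1; positivity
  rw [wt, if_neg h2, Nat.cast_sub h.2.2.2.le]
  field_simp

lemma canc {d d' w : ℕ} {x : ℚ} (h : 1 ≤ w) (h1 : (w : ℚ) = d * x) (h2 : (w : ℚ) = d' * x) :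
    d = d' := by
  have : x ≠ 0 := by
    rintro rfl
    have : w = 0 := by simpa using h1
    omega
  exact_mod_cast mul_right_cancel₀ this (h1.symm.trans h2)

lemma gap {ρ α : ℝ} {T a a' : ℕ} (hρ : 3 ≤ ρ) (hα : (T : ℝ) + 2 ≤ α) (ha : 1 ≤ a) (h : a < a')
    (h1 : |(a' : ℝ) / a - 1| ≤ 2 / ρ ^ 2) : 2 * ρ ^ T < (a' : ℝ) ^ α - (a : ℝ) ^ α := by
  have a0 : (0 : ℝ) < a := by exact_mod_cast ha
  have a1 : (a : ℝ) + 1 ≤ a' := by exact_mod_cast h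
  have T0 : (0 : ℝ) ≤ T := Nat.cast_nonneg T
  have h2 : ρ ≤ a' := by
    have := (le_abs_self _).trans h1
    rw [div_sub_one a0.ne', div_le_div_iff₀ a0 (by positivity)] at this
    nlinarith
  have h3 : ρ ^ (T + 1) ≤ (a' : ℝ) ^ (α - 1) := by
    rw [← Real.rpow_natCast]
    exact (Real.rpow_le_rpow_of_exponent_le (by linarith) (by push_cast; linarith)).trans
      (Real.rpow_le_rpow (by linarith) h2 (by linarith))
  have h4 : (a : ℝ) ^ (α - 1) ≤ (a' : ℝ) ^ (α - 1) :=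
    Real.rpow_le_rpow a0.le (by linarith) (by linarith)
  have e : ∀ x : ℝ, 0 < x → x ^ α = x ^ (α - 1) * x := fun x hx => by
    rw [Real.rpow_sub_one hx.ne', div_mul_cancel₀ _ hx.ne']
  have h5 : 0 < ρ ^ T := by positivity
  have h6 : 0 ≤ (a' : ℝ) ^ (α - 1) := by positivity
  rw [e a a0, e a' (by linarith)]
  rw [pow_succ] at h3
  nlinarith [mul_le_mul_of_nonneg_right h4 a0.le, mul_le_mul_of_nonneg_left a1 h6]

/-- one patch -/
lemma one {ρ α : ℝ} {T B m : ℕ} (hρ : 3 ≤ ρ) (hα : (T : ℝ) + 2 ≤ α) (S : Finset (Fin 4 → ℕ))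
    (h1 : ∀ q ∈ S, Od q ∧ 1 ≤ wt q ∧ q 1 < 2 ^ (m + 1) ∧ |sg α q| ≤ ρ ^ T)
    (h2 : ∀ q ∈ S, ∀ q' ∈ S, ∀ i, |(q i : ℝ) / q' i - 1| ≤ 2 / ρ ^ 2)
    (h3 : ∀ S' ⊆ S, ∀ i : Fin 4, i ≠ 3 → (i = 0 → ∀ q ∈ S', q 3 ≤ 2 * q 0) →
      (S'.image fun q => (q i : ℚ) / q 3).card ≤ B) :
    ∑ q ∈ S, (wt q : ℝ)⁻¹ ≤ ((B : ℝ) ^ 3 + B ^ 2) * (m + 3) := by
  have hw : ∀ q ∈ S, 1 ≤ wt q ∧ wt q ≤ 2 ^ (m + 2) := fun q hq => by
    obtain ⟨⟨a, b, c, d⟩, e, f, -⟩ := h1 q hq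
    refine ⟨e, ?_⟩
    rw [pow_succ 2 (m + 1), wt]
    split_ifs <;> omega
  rw [← sum_filter_add_sum_filter_not S (fun q => q 3 ≤ 2 * q 0), add_mul]
  refine add_le_add ?_ ?_
  · set S' := S.filter (fun q => q 3 ≤ 2 * q 0)
    have c : ∀ i : Fin 4, i ≠ 3 → (S'.image fun q => (q i : ℚ) / q 3).card ≤ B := fun i hi =>
      h3 S' (filter_subset _ _) i hi fun _ q hq => (mem_filter.1 hq).2
    refine fib S' (fun q => ((q 0 : ℚ) / q 3, (q 1 : ℚ) / q 3, (q 2 : ℚ) / q 3)) _ ?_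
      (by positivity) fun y => harm _ _ m (fun q hq q' hq' e => ?_)
        fun q hq => hw q (mem_filter.1 (mem_filter.1 hq).1).1
    · refine Nat.cast_le.2 (card_le_card (t := (S'.image fun q => (q 0 : ℚ) / q 3) ×ˢ
        (S'.image fun q => (q 1 : ℚ) / q 3) ×ˢ (S'.image fun q => (q 2 : ℚ) / q 3))
        fun y hy => ?_) |>.trans ?_
      · obtain ⟨q, hq, rfl⟩ := mem_image.1 hy
        exact mem_product.2 ⟨mem_image_of_mem _ hq,
          mem_product.2 ⟨mem_image_of_mem _ hq, mem_image_of_mem _ hq⟩⟩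
      · rw [card_product, card_product, pow_three]
        exact_mod_cast Nat.mul_le_mul (c 0 (by decide))
          (Nat.mul_le_mul (c 1 (by decide)) (c 2 (by decide)))
    · obtain ⟨a1, a2⟩ := mem_filter.1 (mem_coe.1 hq)
      obtain ⟨b1, b2⟩ := mem_filter.1 (mem_coe.1 hq')
      obtain ⟨a3, a4⟩ := mem_filter.1 a1
      obtain ⟨b3, b4⟩ := mem_filter.1 b1
      obtain ⟨e0, e1, e2⟩ : (q 0 : ℚ) / q 3 = (q' 0 : ℚ) / q' 3 ∧
          (q 1 : ℚ) / q 3 = (q' 1 : ℚ) / q' 3 ∧ (q 2 : ℚ) / q 3 = (q' 2 : ℚ) / q' 3 := by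
        simpa only [Prod.mk.injEq] using a2.trans b2.symm
      have o := (h1 q a3).1
      have w2 := wt1 (h1 q' b3).1 (hw q' b3).1 b4
      rw [← e, ← e0, ← e1, ← e2] at w2
      have e3 := canc (hw q a3).1 (wt1 o (hw q a3).1 a4) w2
      exact ext4 (same o e3 e0) (same o e3 e1) (same o e3 e2) e3
  · set S' := S.filter (fun q => ¬ q 3 ≤ 2 * q 0)
    have c : ∀ i : Fin 4, i ≠ 3 → i ≠ 0 → (S'.image fun q => (q i : ℚ) / q 3).card ≤ B :=
      fun i hi h0 => h3 S' (filter_subset _ _) i hi fun e => absurd e h0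
    refine fib S' (fun q => ((q 1 : ℚ) / q 3, (q 2 : ℚ) / q 3)) _ ?_
      (by positivity) fun y => harm _ _ m (fun q hq q' hq' e => ?_)
        fun q hq => hw q (mem_filter.1 (mem_filter.1 hq).1).1
    · refine Nat.cast_le.2 (card_le_card (t := (S'.image fun q => (q 1 : ℚ) / q 3) ×ˢ
        (S'.image fun q => (q 2 : ℚ) / q 3)) fun y hy => ?_) |>.trans ?_
      · obtain ⟨q, hq, rfl⟩ := mem_image.1 hy
        exact mem_product.2 ⟨mem_image_of_mem _ hq, mem_image_of_mem _ hq⟩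
      · rw [card_product, sq]
        exact_mod_cast Nat.mul_le_mul (c 1 (by decide) (by decide)) (c 2 (by decide) (by decide))
    · obtain ⟨a1, a2⟩ := mem_filter.1 (mem_coe.1 hq)
      obtain ⟨b1, b2⟩ := mem_filter.1 (mem_coe.1 hq')
      obtain ⟨a3, a4⟩ := mem_filter.1 a1
      obtain ⟨b3, b4⟩ := mem_filter.1 b1
      obtain ⟨e1, e2⟩ : (q 1 : ℚ) / q 3 = (q' 1 : ℚ) / q' 3 ∧
          (q 2 : ℚ) / q 3 = (q' 2 : ℚ) / q' 3 := by
        simpa only [Prod.mk.injEq] using a2.trans b2.symm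
      have o := (h1 q a3).1
      have w2 := wt2 (h1 q' b3).1 b4
      rw [← e, ← e1] at w2
      have e3 := canc (hw q a3).1 (wt2 o a4) w2
      have f1 := same o e3 e1
      have f2 := same o e3 e2
      have s1 := abs_le.1 (h1 q a3).2.2.2
      have s2 := abs_le.1 (h1 q' b3).2.2.2
      unfold sg at s1 s2
      rw [f1, f2, e3] at s1
      refine ext4 ?_ f1 f2 e3
      rcases lt_trichotomy (q 0) (q' 0) with h | h | h
      · linarith [gap hρ hα o.1 h (h2 q' b3 q a3 0)]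
      · exact h
      · linarith [gap hρ hα (h1 q' b3).1.1 h (h2 q a3 q' b3 0)]

end BP

theorem pB (h : S_D) : S_B := by
  intro T ε hε
  obtain ⟨L, hL⟩ := exists_nat_ge (max 2 (14 / ε))
  have L2 : 2 ≤ L := by exact_mod_cast (le_max_left _ _).trans hL
  have L0 : (0 : ℝ) < L := by positivity
  have Lε : 14 / (L : ℝ) ≤ ε := by
    have := (le_max_right _ _).trans hL
    rw [div_le_iff₀ hε] at this
    rw [div_le_iff₀ L0]; linarith
  obtain ⟨α₀, hD⟩ := h (2 * L * (T + 1))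
  refine ⟨max α₀ (((2 * L * (T + 1) : ℕ) : ℝ) + 2), fun α hα => ?_⟩
  obtain ⟨B, ρ₀, hB⟩ := hD α ((le_max_left _ _).trans hα)
  have r1 : (1 : ℝ) < 2 ^ (1 / (L : ℝ)) := Real.one_lt_rpow one_lt_two (by positivity)
  have t1 := tendsto_pow_atTop_atTop_of_one_lt r1
  have t2 := (tendsto_pow_const_div_const_pow_of_one_lt 1 r1).eventually
    (ge_mem_nhds (by norm_num : (0 : ℝ) < 1 / 2))
  obtain ⟨m₀, hm⟩ := eventually_atTop.1 ((t1.eventually_ge_atTop ρ₀).and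
    ((t1.eventually_ge_atTop 6).and
      ((t1.eventually_ge_atTop (16 * ((B : ℝ) ^ 3 + B ^ 2))).and t2)))
  refine ⟨m₀, fun m hm' S hS => ?_⟩
  obtain ⟨p1, p2, p3, p4⟩ := hm m hm'
  have eL : (((2 : ℝ) ^ (1 / (L : ℝ))) ^ m) ^ L = 2 ^ m := by
    rw [← pow_mul, mul_comm, pow_mul, one_div, Real.rpow_inv_natCast_pow zero_le_two (by omega)]
  have e14 : (((2 : ℝ) ^ (1 / (L : ℝ))) ^ m) ^ 14 ≤ 2 ^ (ε * m) := by
    rw [← pow_mul, ← Real.rpow_natCast, ← Real.rpow_mul zero_le_two]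
    refine Real.rpow_le_rpow_of_exponent_le one_le_two (le_of_eq_of_le ?_
      (mul_le_mul_of_nonneg_right Lε (Nat.cast_nonneg m)))
    push_cast; ring
  generalize ((2 : ℝ) ^ (1 / (L : ℝ))) ^ m = ρ at *
  have ρ1 : 1 ≤ ρ := by linarith
  have ρ0 : 0 < ρ := by linarith
  rw [pow_one, div_le_iff₀ ρ0] at p4
  have k1 : ∀ q ∈ S, Od q ∧ ρ ≤ q 3 ∧ (q 1 : ℝ) ≤ ρ ^ (2 * L * (T + 1)) ∧
      |sg α q| ≤ ρ ^ (2 * L * (T + 1)) := fun q hq => by
    obtain ⟨a, b, c, d, -, f⟩ := hS q hq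
    have b' : ρ ^ L ≤ q 1 := by rw [eL]; exact_mod_cast b
    have c' : (q 1 : ℝ) ≤ 2 ^ m * 2 := by exact_mod_cast c.le
    have d' : (q 1 : ℝ) ≤ 2 * q 3 := by exact_mod_cast d
    have g : ρ ^ 2 ≤ ρ ^ L := pow_le_pow_right₀ ρ1 L2
    have g2 : (q 1 : ℝ) ≤ ρ ^ (2 * L) := by
      rw [two_mul, pow_add]
      rw [← eL] at c'
      exact c'.trans (mul_le_mul_of_nonneg_left (by nlinarith) (by positivity))
    refine ⟨a, by nlinarith, g2.trans (pow_le_pow_right₀ ρ1 (Nat.le_mul_of_pos_right _ T.succ_pos)),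
      f.trans ((pow_le_pow_left₀ (Nat.cast_nonneg _) g2 T).trans ?_)⟩
    rw [← pow_mul]
    exact pow_le_pow_right₀ ρ1 (Nat.mul_le_mul_left _ T.le_succ)
  have cP : ((S.image fun q i => ⌊ρ ^ 2 * Real.log (q i)⌋₊).card : ℝ) ≤ (2 * ρ ^ 3) ^ 4 := by
    refine (Nat.cast_le.2 (card_le_card
      (t := Fintype.piFinset fun _ : Fin 4 => range (⌊ρ ^ 3⌋₊ + 1)) fun y hy => ?_)).trans ?_
    · obtain ⟨q, hq, rfl⟩ := mem_image.1 hy
      refine Fintype.mem_piFinset.2 fun i => mem_range.2 (Nat.lt_succ_of_le (Nat.floor_le_floor ?_))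
      obtain ⟨a, -, c, -⟩ := hS q hq
      obtain ⟨u, v⟩ := BP.od_le a i
      have l1 : Real.log (q i) ≤ Real.log (2 ^ (m + 1)) :=
        Real.log_le_log (by exact_mod_cast u) (by exact_mod_cast v.trans c.le)
      have l2 : Real.log 2 ≤ 1 := by linarith [Real.log_two_lt_d9]
      have l3 := mul_le_mul_of_nonneg_left l2 (Nat.cast_nonneg (α := ℝ) (m + 1))
      rw [Real.log_pow] at l1
      rw [pow_succ ρ 2]
      refine mul_le_mul_of_nonneg_left ?_ (by positivity)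
      push_cast at l1 l3
      linarith
    · simp only [Fintype.card_piFinset, card_range, prod_const, card_univ, Fintype.card_fin]
      push_cast
      have := Nat.floor_le (show 0 ≤ ρ ^ 3 by positivity)
      have := one_le_pow₀ (n := 3) ρ1
      exact pow_le_pow_left₀ (by positivity) (by linarith) 4
  refine (BP.fib S _ _ cP (b := ((B : ℝ) ^ 3 + B ^ 2) * (m + 3)) (by positivity) fun y => ?_).trans
    (le_trans ?_ e14)
  · have k2 : ∀ q ∈ S.filter (fun q => (fun i => ⌊ρ ^ 2 * Real.log (q i)⌋₊) = y),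
        ∀ q' ∈ S.filter (fun q => (fun i => ⌊ρ ^ 2 * Real.log (q i)⌋₊) = y), ∀ i,
        |(q i : ℝ) / q' i - 1| ≤ 2 / ρ ^ 2 := fun q hq q' hq' i =>
      BP.patch ρ1 (BP.od_le (hS q (mem_filter.1 hq).1).1 i).1
        (BP.od_le (hS q' (mem_filter.1 hq').1).1 i).1
        (congrFun ((mem_filter.1 hq).2.trans (mem_filter.1 hq').2.symm) i)
    refine BP.one (by linarith) ((le_max_right _ _).trans hα) _ (fun q hq => ?_) k2
      fun S' hS' => hB ρ p1 S' (fun q hq => k1 q (mem_filter.1 (hS' hq)).1)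
        fun q hq q' hq' => k2 q (hS' hq) q' (hS' hq')
    have hq' := (mem_filter.1 hq).1
    exact ⟨(hS q hq').1, (hS q hq').2.2.2.2.1, (hS q hq').2.2.1, (k1 q hq').2.2.2⟩
  · calc _ = ρ ^ 12 * (16 * ((B : ℝ) ^ 3 + B ^ 2) * (m + 3)) := by ring
      _ ≤ ρ ^ 12 * (ρ * ρ) :=
        mul_le_mul_of_nonneg_left (mul_le_mul p3 (by linarith) (by positivity) ρ0.le) (by positivity)
      _ = _ := by ring

end Pool.Agent.P.MP_2c7719_nt.Rz
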