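import Pool.Agent.P.MP_2c7719_nt.Rz.St

/-! The Borel-Cantelli step. -/

namespace Pool.Agent.P.MP_2c7719_nt.Rz

open Filter MeasureTheory

namespace CP

theorem vol (x s : ℝ) (hs : s ≠ 0) :
    volume {ξ : ℝ | |x + ξ * s| ≤ 2} ≤ ENNReal.ofReal (4 / |s|) := by
  have h0 : 0 < |s| := abs_pos.2 hs
  have h : {ξ : ℝ | |x + ξ * s| ≤ 2} ⊆ Metric.closedBall (-x / s) (2 / |s|) := by
    intro ξ hξ
    have h1 : |x + ξ * s| ≤ 2 := hξ
    rw [Metric.mem_closedBall, Real.dist_eq, le_div_iff₀ h0, ← abs_mul]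
    have : (ξ - -x / s) * s = x + ξ * s := by field_simp; ring
    rwa [this]
  refine (measure_mono h).trans (le_of_eq ?_)
  rw [Real.volume_closedBall]
  congr 1; ring

theorem gap {α : ℝ} {T u v : ℕ} (hα : (T : ℝ) + 1 ≤ α) (h : u < v) :
    (u : ℝ) ^ α + (v : ℝ) ^ T ≤ (v : ℝ) ^ α := by
  have hT : (0 : ℝ) ≤ T := Nat.cast_nonneg T
  have h1 : (u : ℝ) + 1 ≤ v := by exact_mod_cast h
  have h0 : (0 : ℝ) ≤ u := Nat.cast_nonneg u
  have e : ∀ x : ℝ, 0 ≤ x → x ^ α = x * x ^ (α - 1) := fun x hx => by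
    rw [← Real.rpow_one_add' hx (by linarith)]; congr 1; ring
  have h2 : (u : ℝ) ^ (α - 1) ≤ (v : ℝ) ^ (α - 1) :=
    Real.rpow_le_rpow h0 (by linarith) (by linarith)
  have h3 : (v : ℝ) ^ T ≤ (v : ℝ) ^ (α - 1) := by
    rw [← Real.rpow_natCast]
    exact Real.rpow_le_rpow_of_exponent_le (by linarith) (by linarith)
  have h4 : 0 ≤ (v : ℝ) ^ (α - 1) := Real.rpow_nonneg (by linarith) _
  rw [e u h0, e v (by linarith)]
  nlinarith [mul_le_mul_of_nonneg_left h2 h0]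

open Classical in
/-- the near solutions of a dyadic block -/
noncomputable def NN (α : ℝ) (T m : ℕ) : Finset (Fin 4 → ℕ) :=
  (Fintype.piFinset fun _ => Finset.range (2 ^ (m + 1))).filter
    (fun q => Od q ∧ 2 ^ m ≤ q 1 ∧ |sg α q| ≤ (q 1 : ℝ) ^ T)

/-- the exceptional parameters of a dyadic block -/
def FF (α β : ℝ) (g : ℕ → ℝ) (T m : ℕ) : Set ℝ :=
  ⋃ q ∈ NN α T m, {ξ : ℝ | |sg α q + (g (q 0) + g (q 1) - g (q 2) - g (q 3)) + ξ * sg β q| ≤ 2}

theorem ae (hA : S_A) (hB : S_B) {β : ℝ} (hβ : 1 < β) (T : ℕ) : ∃ α₀ : ℝ, ∀ α ≥ α₀,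
    ∀ g : ℕ → ℝ, ∀ᵐ ξ : ℝ, ∃ m₁ : ℕ, ∀ m ≥ m₁, ξ ∉ FF α β g T m := by
  classical
  obtain ⟨α₀, hB⟩ := hB T ((β - 1) / 2) (by linarith)
  refine ⟨max α₀ (β + T + 3), fun α hα g => ?_⟩
  obtain ⟨c, hc, N₀, hA⟩ := hA β hβ T α (le_trans (le_max_right _ _) hα)
  obtain ⟨m₀, hB⟩ := hB α (le_trans (le_max_left _ _) hα)
  set r : ℝ := (2 : ℝ) ^ (-((β - 1) / 2)) with hr
  have r0 : 0 ≤ r := by positivity
  have r1 : r < 1 := Real.rpow_lt_one_of_one_lt_of_neg (by norm_num) (by linarith)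
  have key : ∀ m, m₀ + N₀ ≤ m → volume (FF α β g T m) ≤ ENNReal.ofReal (4 / c * r ^ m) := by
    intro m hm
    have mem : ∀ q ∈ NN α T m, Od q ∧ 2 ^ m ≤ q 1 ∧ q 1 < 2 ^ (m + 1) ∧ N₀ ≤ q 1 ∧
        |sg α q| ≤ (q 1 : ℝ) ^ T := by
      intro q hq
      obtain ⟨h1, h2, h3, h4⟩ := Finset.mem_filter.1 hq
      have := Nat.lt_two_pow_self (n := m)
      exact ⟨h2, h3, Finset.mem_range.1 (Fintype.mem_piFinset.1 h1 1), by omega, h4⟩
    have b := hB m (by omega) (NN α T m) (fun q hq => by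
      obtain ⟨h1, h2, h3, h4, h5⟩ := mem q hq
      obtain ⟨a1, a2, -⟩ := hA q h1 h4 h5
      exact ⟨h1, h2, h3, a1, a2, h5⟩)
    have P0 : (0 : ℝ) < (2 : ℝ) ^ ((β - 1) * m) := by positivity
    refine (measure_biUnion_finset_le _ _).trans ?_
    have s1 : ∀ q ∈ NN α T m, volume {ξ : ℝ | |sg α q + (g (q 0) + g (q 1) - g (q 2) - g (q 3)) +
        ξ * sg β q| ≤ 2} ≤ ENNReal.ofReal (4 / c / (2 : ℝ) ^ ((β - 1) * m) * (wt q : ℝ)⁻¹) := by
      intro q hq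
      obtain ⟨h1, h2, h3, h4, h5⟩ := mem q hq
      obtain ⟨-, a2, a3⟩ := hA q h1 h4 h5
      have w : (0 : ℝ) < wt q := by exact_mod_cast a2
      have p : (2 : ℝ) ^ ((β - 1) * m) ≤ (q 1 : ℝ) ^ (β - 1) := by
        rw [mul_comm, Real.rpow_mul (by norm_num), Real.rpow_natCast]
        exact Real.rpow_le_rpow (by positivity) (by exact_mod_cast h2) (by linarith)
      have l : c * (2 : ℝ) ^ ((β - 1) * m) * wt q ≤ |sg β q| := le_trans (by gcongr) a3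
      have l0 : 0 < c * (2 : ℝ) ^ ((β - 1) * m) * wt q := by positivity
      refine (vol _ _ (abs_pos.1 (l0.trans_le l))).trans (ENNReal.ofReal_le_ofReal ?_)
      calc 4 / |sg β q| ≤ 4 / (c * (2 : ℝ) ^ ((β - 1) * m) * wt q) := by gcongr
        _ = _ := by field_simp
    refine (Finset.sum_le_sum s1).trans ?_
    rw [← ENNReal.ofReal_sum_of_nonneg (fun q _ => by positivity), ← Finset.mul_sum]
    refine ENNReal.ofReal_le_ofReal ?_
    have e : r ^ m = (2 : ℝ) ^ ((β - 1) / 2 * m) / (2 : ℝ) ^ ((β - 1) * m) := by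
      rw [hr, ← Real.rpow_natCast, ← Real.rpow_mul (by norm_num), ← Real.rpow_sub (by norm_num)]
      congr 1; ring
    calc _ ≤ 4 / c / (2 : ℝ) ^ ((β - 1) * m) * (2 : ℝ) ^ ((β - 1) / 2 * m) := by gcongr
      _ = _ := by rw [e]; ring
  have hs : ∑' m, volume (FF α β g T (m + (m₀ + N₀))) ≠ ⊤ := by
    have : Summable (fun m : ℕ => 4 / c * r ^ (m + (m₀ + N₀))) :=
      ((summable_nat_add_iff _).2 (summable_geometric_of_lt_one r0 r1)).mul_left _
    exact ne_top_of_le_ne_top this.tsum_ofReal_ne_top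
      (ENNReal.tsum_le_tsum (fun m => key _ (by omega)))
  filter_upwards [ae_eventually_notMem hs] with ξ hξ
  obtain ⟨m₂, h⟩ := eventually_atTop.1 hξ
  refine ⟨m₂ + (m₀ + N₀), fun m hm => ?_⟩
  have := h (m - (m₀ + N₀)) (by omega)
  rwa [Nat.sub_add_cancel (by omega)] at this

end CP

theorem pC (hA : S_A) (hB : S_B) : S_Main := by
  classical
  intro β γ hβ
  set t : ℕ := ⌈max β γ⌉₊ with ht
  obtain ⟨α₀, h⟩ := CP.ae hA hB hβ (t + 1)
  refine ⟨max α₀ (t + 2), fun α hα g hg => ?_⟩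
  have hα' : ((t + 1 : ℕ) : ℝ) + 1 ≤ α := by
    push_cast; linarith [le_trans (le_max_right _ _) hα]
  obtain ⟨n₁, hg⟩ := eventually_atTop.1 hg
  filter_upwards [h α (le_trans (le_max_left _ _) hα) g] with ξ hξ
  obtain ⟨m₁, hξ⟩ := hξ
  set n₀ : ℕ := n₁ + 2 ^ m₁ + ⌈6 + 4 * |ξ|⌉₊ with hn
  have p1 : 1 ≤ 2 ^ m₁ := Nat.one_le_two_pow
  have x0 := abs_nonneg ξ
  have big : ∀ v, n₀ ≤ v → 1 ≤ (v : ℝ) ^ t ∧ (6 + 4 * |ξ|) * (v : ℝ) ^ t ≤ (v : ℝ) ^ (t + 1) := by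
    intro v hv
    have a : 6 + 4 * |ξ| ≤ v := (Nat.le_ceil _).trans (by exact_mod_cast (by omega))
    refine ⟨one_le_pow₀ (by linarith), ?_⟩
    rw [pow_succ']; gcongr
  have bd : ∀ u v, n₀ ≤ u → u ≤ v → |g u + ξ * (u : ℝ) ^ β| ≤ (1 + |ξ|) * (v : ℝ) ^ t := by
    intro u v hu huv
    have u1 : (1 : ℝ) ≤ u := by exact_mod_cast (by omega)
    have pw : ∀ s : ℝ, s ≤ max β γ → (u : ℝ) ^ s ≤ (v : ℝ) ^ t := fun s hs => by
      refine le_trans ?_ (pow_le_pow_left₀ (by linarith) (Nat.cast_le.2 huv) t)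
      rw [← Real.rpow_natCast]
      exact Real.rpow_le_rpow_of_exponent_le u1 (hs.trans (Nat.le_ceil _))
    have a1 := (hg u (by omega)).trans (pw γ (le_max_right _ _))
    have a2 : |ξ * (u : ℝ) ^ β| ≤ |ξ| * (v : ℝ) ^ t := by
      rw [abs_mul, abs_of_nonneg (Real.rpow_nonneg (by linarith) β)]
      exact mul_le_mul_of_nonneg_left (pw β (le_max_left _ _)) x0
    linarith [abs_add_le (g u) (ξ * (u : ℝ) ^ β)]
  set f : ℕ → ℤ := fun n => ⌊(n : ℝ) ^ α + g n + ξ * (n : ℝ) ^ β⌋ with hf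
  have mono : ∀ u v, n₀ ≤ u → u < v → f u < f v := by
    intro u v hu huv
    have a1 := abs_le.1 (bd u v hu huv.le)
    have a2 := abs_le.1 (bd v v (by omega) le_rfl)
    have a3 := CP.gap hα' huv
    obtain ⟨a4, a5⟩ := big v (by omega)
    have a6 : 0 ≤ |ξ| * (v : ℝ) ^ t := by positivity
    refine Int.lt_of_add_one_le ?_
    simp only [hf]
    rw [← Int.floor_add_one]
    exact Int.floor_le_floor (by linarith [a1.2, a2.1])
  have main : ∀ a b c d : ℕ, n₀ ≤ a → a ≤ b → n₀ ≤ c → c ≤ d → d ≤ b →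
      f a + f b = f c + f d → a = c ∧ b = d := by
    intro a b c d ha hab hc hcd hdb e
    rcases hdb.eq_or_lt with rfl | hdb
    · refine ⟨?_, rfl⟩
      rcases lt_trichotomy a c with h1 | h1 | h1
      · have := mono a c ha h1; omega
      · exact h1
      · have := mono c a hc h1; omega
    exfalso
    have hac : a < c := by
      have h1 := mono d b (by omega) hdb
      by_contra h2
      rcases (not_lt.1 h2).eq_or_lt with h3 | h3
      · rw [h3] at e; omega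
      · have := mono c a hc h3; omega
    have e' : (f a : ℝ) + f b = f c + f d := by exact_mod_cast e
    have fl : ∀ n, (f n : ℝ) ≤ (n : ℝ) ^ α + g n + ξ * (n : ℝ) ^ β ∧
        (n : ℝ) ^ α + g n + ξ * (n : ℝ) ^ β < f n + 1 :=
      fun n => ⟨Int.floor_le _, Int.lt_floor_add_one _⟩
    have s1 : sg α ![a, b, c, d] = (a : ℝ) ^ α + (b : ℝ) ^ α - (c : ℝ) ^ α - (d : ℝ) ^ α := rfl
    have s2 : sg β ![a, b, c, d] = (a : ℝ) ^ β + (b : ℝ) ^ β - (c : ℝ) ^ β - (d : ℝ) ^ β := rfl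
    have fa := fl a; have fb := fl b; have fc := fl c; have fd := fl d
    have hb0 : b ≠ 0 := by omega
    have hlt := Nat.lt_pow_succ_log_self (b := 2) (by norm_num) b
    refine hξ (Nat.log 2 b) (Nat.le_log_of_pow_le (by norm_num) (by omega)) ?_
    refine Set.mem_iUnion₂.2 ⟨![a, b, c, d], Finset.mem_filter.2 ⟨?_, ⟨?_, hac, hcd, hdb⟩,
      Nat.pow_log_le_self 2 hb0, ?_⟩, ?_⟩
    · refine Fintype.mem_piFinset.2 (fun i => Finset.mem_range.2 (lt_of_le_of_lt ?_ hlt))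
      fin_cases i
      exacts [hab, le_rfl, hcd.trans hdb.le, hdb.le]
    · show 1 ≤ a
      omega
    · show |sg α ![a, b, c, d]| ≤ (b : ℝ) ^ (t + 1)
      have a1 := abs_le.1 (bd a b ha hab)
      have a2 := abs_le.1 (bd b b (by omega) le_rfl)
      have a3 := abs_le.1 (bd c b hc (by omega))
      have a4 := abs_le.1 (bd d b (by omega) hdb.le)
      obtain ⟨a5, a6⟩ := big b (by omega)
      rw [s1, abs_le]
      constructor <;> linarith [a1.1, a1.2, a2.1, a2.2, a3.1, a3.2, a4.1, a4.2, fa.1, fa.2, fb.1,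
        fb.2, fc.1, fc.2, fd.1, fd.2]
    · show |sg α ![a, b, c, d] + (g a + g b - g c - g d) + ξ * sg β ![a, b, c, d]| ≤ 2
      rw [s1, s2, abs_le]
      constructor <;> linarith [fa.1, fa.2, fb.1, fb.2, fc.1, fc.2, fd.1, fd.2]
  refine ⟨n₀, fun a b c d ha hab hc hcd e => ?_⟩
  rcases le_total d b with h1 | h1
  · exact main a b c d ha hab hc hcd h1 e
  · obtain ⟨h2, h3⟩ := main c d a b hc hcd ha hab h1 e.symm
    exact ⟨h2.symm, h3.symm⟩

end Pool.Agent.P.MP_2c7719_nt.Rz
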