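import Pool.Agent.P.MP_2c7719_nt.Rz.Log

/-! A curve on the surface `∑ α i * x i ^ κ = 1` with irrational `κ` is degenerate. -/

namespace Pool.Agent.P.MP_2c7719_nt.Rz

open VF Win Filter

set_option linter.unusedSectionVars false

variable {K L : Type} [Field K] [CharZero K] [Field L] [CharZero L] [Algebra K L]

theorem irr {c n : ℕ} {V : Submodule K L} (hV : HB c V) (h1 : (1 : L) ∈ V) (D : Derivation K L L)
    {κ : K} (hκ : ∀ q : ℚ, κ ≠ q) {w p q : L} (hw : w ∈ V) (hp : p ∈ V ^ n) (hq : q ∈ V ^ n)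
    (w0 : w ≠ 0) (g0 : p / q ≠ 0) (e : D (p / q) = algebraMap K L κ * (D w / w) * (p / q)) :
    D w = 0 := by
  by_contra hD
  set J := c * (n + 1) with hJ
  have hi := Module.End.eigenvectors_linearIndependent' (((w / D w) • D : Derivation K L L) : L →ₗ[K] L)
    (fun u : Fin (J + 1) × Fin (J + 1) => ((u.1 : ℕ) : K) + κ * (u.2 : ℕ))
    (fun u v h => by
      by_cases h2 : u.2 = v.2
      · exact Prod.ext (Fin.ext (by simpa [h2] using h)) h2
      · refine absurd ?_ (hκ ((((v.1 : ℕ) : ℚ) - (u.1 : ℕ)) / (((u.2 : ℕ) : ℚ) - (v.2 : ℕ))))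
        have : ((u.2 : ℕ) : K) - (v.2 : ℕ) ≠ 0 := by simpa [sub_eq_zero, Fin.ext_iff] using h2
        push_cast
        rw [eq_div_iff this]
        linear_combination h)
    (fun u => w ^ (u.1 : ℕ) * (p / q) ^ (u.2 : ℕ)) fun u => ⟨by
      have hpow : ∀ (a : L) (m : ℕ), a ≠ 0 → D (a ^ m) = m * a ^ m * (D a / a) := fun a m ha => by
        rcases m with _ | m
        · simp
        · rw [D.leibniz_pow, Nat.add_sub_cancel, nsmul_eq_mul, smul_eq_mul]; field_simp; ring
      generalize p / q = g at *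
      rw [Module.End.mem_eigenspace_iff]
      simp only [Derivation.coeFn_coe, Derivation.smul_apply, D.leibniz, smul_eq_mul, hpow _ _ w0,
        hpow _ _ g0, e, Algebra.smul_def, map_add, map_mul, map_natCast]
      field_simp
      ring, mul_ne_zero (pow_ne_zero _ w0) (pow_ne_zero _ g0)⟩
  have q0 : q ≠ 0 := fun h => g0 (by simp [h])
  have := hV (J + n * J) _ _ (fun u => ?_) (li_mul hi (pow_ne_zero J q0))
  · simp only [Fintype.card_prod, Fintype.card_fin] at this
    nlinarith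
  obtain ⟨a, ha⟩ := Nat.exists_eq_add_of_le (Nat.le_of_lt_succ u.2.2)
  have : q ^ J * (w ^ (u.1 : ℕ) * (p / q) ^ (u.2 : ℕ)) = w ^ (u.1 : ℕ) * (p ^ (u.2 : ℕ) * q ^ a) := by
    rw [congrArg (q ^ ·) ha]
    simp only [div_pow, pow_add]
    field_simp
  rw [this]
  have h2 := Submodule.pow_mem_pow _ hp u.2
  have h3 := Submodule.pow_mem_pow _ hq a
  rw [← pow_mul] at h2 h3
  exact mono_mem h1 (pmul (Submodule.pow_mem_pow _ hw _) (pmul h2 h3))
    (by rw [← mul_add, ← ha]; have := u.1.2; omega)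

theorem der_tb (D : Derivation K L L) (κ : K) (ξ : L) (τ : ℕ) :
    (1 + ξ) * D (tb (algebraMap K L κ) (τ + 1) ξ) = (algebraMap K L κ *
      tb (algebraMap K L κ) (τ + 1) ξ -
        (algebraMap K L κ - τ) * Ring.choose (algebraMap K L κ) τ * ξ ^ τ) * D ξ := by
  induction τ with
  | zero => simp [tb]
  | succ τ ih =>
    have h0 : D (Ring.choose (algebraMap K L κ) (τ + 1)) = 0 := by
      rw [← Ring.map_choose, D.map_algebraMap]
    have h1 := (eq_inv_mul_iff_mul_eq₀ (Nat.cast_ne_zero.2 τ.succ_ne_zero)).1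
      (choose_succ (algebraMap K L κ) τ)
    rw [tb, Finset.sum_range_succ, ← tb, map_add, D.leibniz, h0, D.leibniz_pow]
    simp only [smul_eq_mul, nsmul_eq_mul, Nat.add_sub_cancel] at h1 ⊢
    push_cast at h1 ⊢
    linear_combination ih + ξ ^ τ * D ξ * h1

theorem core_L {A : VF L} {p : K} (hp : algebraMap K L p = A.π) (hq : ∀ n : ℕ, (n : L)⁻¹ ∈ A.O)
    {κ : K} (hκ : ∀ q : ℚ, κ ≠ q) (k1 : algebraMap K L κ ∈ A.O) {x y : Fin 3 → L} {c : ℕ}
    (hV : HB c (W K x)) (hx : ∀ i, A.Dv 1 (x i - 1))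
    (yx : ∀ (τ : ℕ) i, A.Dv τ (y i - tb (algebraMap K L κ) τ (x i - 1))) {i₀ : Fin 3} {B : ℕ}
    (hsp : Sp K A B (x i₀)) (s : Finset (Fin 3)) (hs : ∀ i ∈ s, Transcendental K (x i)) (u : K)
    (α : Fin 3 → K) (e : algebraMap K L u + ∑ i ∈ s, algebraMap K L (α i) * y i = 0) : u = 0 := by
  have h1 : (1 : L) ∈ W K x := Submodule.subset_span (Set.mem_insert _ _)
  have hxm : ∀ i, x i ∈ W K x := fun i => Submodule.subset_span (Set.mem_insert_of_mem _ ⟨i, rfl⟩)
  have hx0 : ∀ i, x i ≠ 0 := fun i h => not_dv_one (by simpa [h] using (hx i).neg)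
  have ht := hsp.trans
  obtain ⟨D, hD⟩ := exists_der ht
  choose halg η hη hη0 hηx using fun i =>
    der_bdd2 (c := c) (hV (4 * c)) h1 D (hxm i₀) (hxm i) ht hD
  let F := IntermediateField.adjoin K (Set.range x)
  have hxF : ∀ i, x i ∈ F := fun i => IntermediateField.subset_adjoin _ _ ⟨i, rfl⟩
  have hW : ∀ w ∈ Algebra.adjoin K (Set.range x), ∃ n, w ∈ W K x ^ n := fun w hw => by
    induction hw using Algebra.adjoin_induction with
    | mem w h => obtain ⟨i, rfl⟩ := h; exact ⟨1, mem_one (hxm i)⟩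
    | algebraMap q => exact ⟨0, by rw [pow_zero]; exact Submodule.algebraMap_mem q⟩
    | add u v _ _ hu hv =>
      obtain ⟨c, hc⟩ := hu
      obtain ⟨d, hd⟩ := hv
      exact ⟨c + d, add_mem (mono_mem h1 hc (by omega)) (mono_mem h1 hd (by omega))⟩
    | mul u v _ _ hu hv => exact hu.elim fun _ hc => hv.elim fun _ hd => ⟨_, pmul hc hd⟩
  let g : Fin 3 ⊕ Fin 3 → L := Sum.elim x fun i => (η i)⁻¹
  set R := Algebra.adjoin K (Set.range g)
  have hg : ∀ o, g o ∈ R := fun o => Algebra.subset_adjoin ⟨o, rfl⟩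
  have hle : Algebra.adjoin K (Set.range x) ≤ R := Algebra.adjoin_mono (by
    rintro _ ⟨i, rfl⟩; exact ⟨.inl i, rfl⟩)
  have hW' : ∀ n, ∀ w ∈ W K x ^ n, w ∈ Algebra.adjoin K (Set.range x) := fun n w hw => by
    obtain ⟨G, -, rfl⟩ := W_lift x n hw
    exact (Algebra.adjoin_range_eq_range_aeval K x).ge ⟨G, rfl⟩
  have hDR : ∀ w ∈ Algebra.adjoin K (Set.range x), D w ∈ R := fun w hw => by
    induction hw using Algebra.adjoin_induction with
    | mem w h =>
      obtain ⟨i, rfl⟩ := h
      exact inv_mul_cancel_left₀ (hη0 i) (D (x i)) ▸ mul_mem (hg (.inr i)) (hle (hW' _ _ (hηx i)))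
    | algebraMap q => simp
    | add u v _ _ hu hv => rw [map_add]; exact add_mem hu hv
    | mul u v h h' hu hv => rw [D.leibniz]; exact add_mem (mul_mem (hle h) hv) (mul_mem (hle h') hu)
  have hRF : ∀ w ∈ R, w ∈ F := fun w hw => Algebra.adjoin_le (S := F.toSubalgebra) (by
    rintro _ ⟨i | i, rfl⟩
    exacts [hxF i, F.inv_mem (IntermediateField.algebra_adjoin_le_adjoin _ _ (hW' _ _ (hη i)))]) hw
  have hA0 : ∀ w ∈ Algebra.adjoin K (Set.range x), IsAlgebraic (Algebra.adjoin K {x i₀}) w :=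
    fun w hw => by
    induction hw using Algebra.adjoin_induction with
    | mem w h => obtain ⟨i, rfl⟩ := h; exact halg i
    | algebraMap q => exact isAlgebraic_algebraMap (algebraMap K (Algebra.adjoin K {x i₀}) q)
    | add u v _ _ hu hv => exact hu.add hv
    | mul u v _ _ hu hv => exact hu.mul hv
  obtain ⟨B', hB⟩ := logder2 hp hq D g (by
    rintro (i | i)
    · exact hDR _ (Algebra.subset_adjoin ⟨i, rfl⟩)
    · rw [show g (.inr i) = (η i)⁻¹ from rfl, D.leibniz_inv, smul_eq_mul]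
      exact mul_mem (neg_mem (pow_mem (hg (.inr i)) 2)) (hDR _ (hW' _ _ (hη i)))) hD hsp
    (hg (.inl i₀)) fun w hw => by
      induction hw using Algebra.adjoin_induction with
      | mem w h =>
        obtain ⟨i | i, rfl⟩ := h
        exacts [halg i, (hA0 _ (hW' _ _ (hη i))).inv]
      | algebraMap q => exact isAlgebraic_algebraMap (algebraMap K (Algebra.adjoin K {x i₀}) q)
      | add u v _ _ hu hv => exact hu.add hv
      | mul u v _ _ hu hv => exact hu.mul hv
  have hF : ∀ w ∈ F, D w ∈ F ∧ ∃ v, A.Dv (-B') v ∧ D w = w * v := fun w hw => by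
    obtain ⟨a, ha, b, hb, rfl⟩ := IntermediateField.mem_adjoin_iff_div.1 hw
    refine ⟨?_, D a / a - D b / b, (hB a (hle ha)).sub (hB b (hle hb)), ?_⟩
    · rw [D.leibniz_div]
      exact mul_mem (pow_mem (F.inv_mem (hRF _ (hle hb))) 2) (sub_mem
        (mul_mem (hRF _ (hle hb)) (hRF _ (hDR a ha))) (mul_mem (hRF _ (hle ha)) (hRF _ (hDR b hb))))
    · by_cases a0 : a = 0
      · simp [a0]
      by_cases b0 : b = 0
      · simp [b0]
      simp only [D.leibniz_div, smul_eq_mul]
      field_simp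
  set k := algebraMap K L κ
  let lam : Fin 3 → L := fun i => k * (D (x i) / x i)
  have hlam : ∀ i, lam i ∈ F := fun i =>
    mul_mem (F.algebraMap_mem κ) (div_mem (hF _ (hxF i)).1 (hxF i))
  have nabla : ∀ (s : Finset (Fin 3)) (u : L) (G : Fin 3 → L), u ∈ F → (∀ i, G i ∈ F) →
      u + ∑ i ∈ s, G i * y i = 0 → D u + ∑ i ∈ s, (D (G i) + G i * lam i) * y i = 0 :=
    fun s u G hu hG e => by
    obtain ⟨m₁, hm₁⟩ := exists_dv_fam (A := A) G
    obtain ⟨m₂, hm₂⟩ := exists_dv_fam (A := A) fun i => D (G i) + G i * lam i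
    obtain ⟨m₃, hm₃⟩ := exists_dv_fam (A := A) fun i => G i * (D (x i) / x i)
    refine eq_zero (A := A) (-(m₁ + m₂ + m₃ + B')) fun τ => ?_
    obtain ⟨-, v, hv, ev⟩ := hF (u + ∑ i ∈ s, G i * tb k (τ + 1) (x i - 1))
      (add_mem hu (sum_mem fun i _ => mul_mem (hG i) (sum_mem fun j _ => mul_mem
        (Ring.map_choose (algebraMap K L) κ j ▸ F.algebraMap_mem _)
        (pow_mem (sub_mem (hxF i) (one_mem _)) _))))
    have e1 : u + ∑ i ∈ s, G i * tb k (τ + 1) (x i - 1) =
        -∑ i ∈ s, G i * (y i - tb k (τ + 1) (x i - 1)) := by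
      simp only [mul_sub, Finset.sum_sub_distrib]
      linear_combination e
    have e2 : D u + ∑ i ∈ s, (D (G i) + G i * lam i) * y i =
        D (u + ∑ i ∈ s, G i * tb k (τ + 1) (x i - 1)) +
        ∑ i ∈ s, ((D (G i) + G i * lam i) * (y i - tb k (τ + 1) (x i - 1)) +
          G i * (D (x i) / x i) * ((k - τ) * Ring.choose k τ * (x i - 1) ^ τ)) := by
      rw [map_add, map_sum, add_assoc, ← Finset.sum_add_distrib]
      refine congrArg _ (Finset.sum_congr rfl fun i _ => ?_)
      have := der_tb D κ (x i - 1) τ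
      rw [add_sub_cancel, map_sub, D.map_one_eq_zero, sub_zero, ← eq_inv_mul_iff_mul_eq₀ (hx0 i)]
        at this
      simp only [D.leibniz, smul_eq_mul, lam, k, this]
      ring
    rw [e2, ev, e1]
    refine ((Dv.sum fun i _ => (hm₁ i).mul (yx (τ + 1) i)).neg.mul hv |>.mono (by omega)).add
      (Dv.sum fun i _ => (((hm₂ i).mul (yx (τ + 1) i)).mono (by omega)).add
        (((hm₃ i).mul (Dv.omul (mul_mem (sub_mem k1 (natCast_mem _ _)) (choose_mem hq k1 τ))
          ((hx i).pow τ))).mono (by omega)))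
  have elim : ∀ s : Finset (Fin 3), (∀ i ∈ s, Transcendental K (x i)) → ∀ (u : L) (G : Fin 3 → L),
      u ∈ F → (∀ i, G i ∈ F) → u + ∑ i ∈ s, G i * y i = 0 → u = 0 := fun s => by
    induction s using Finset.induction_on with
    | empty => exact fun _ u G _ _ e => by simpa using e
    | insert j s hj ih =>
      intro hs u G hu hG e
      have hs' := fun i hi => hs i (Finset.mem_insert_of_mem hi)
      by_cases g0 : G j = 0
      · exact ih hs' u G hu hG (by simpa [Finset.sum_insert hj, g0] using e)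
      have e1 : u / G j + ∑ i ∈ insert j s, G i / G j * y i = 0 := by
        simp only [div_mul_eq_mul_div, ← Finset.sum_div, ← add_div, e, zero_div]
      have hu' := div_mem hu (hG j)
      have hG' := fun i => div_mem (hG i) (hG j)
      have e2 := nabla _ _ _ hu' hG' e1
      rw [Finset.sum_insert hj, div_self g0] at e1 e2
      have e3 := ih hs' (D (u / G j) - lam j * (u / G j))
        (fun i => D (G i / G j) + G i / G j * lam i - lam j * (G i / G j))
        (sub_mem (hF _ hu').1 (mul_mem (hlam j) hu')) (fun i => sub_mem (add_mem (hF _ (hG' i)).1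
          (mul_mem (hG' i) (hlam i))) (mul_mem (hlam j) (hG' i))) (by
          simp only [sub_mul, Finset.sum_sub_distrib, mul_assoc (lam j), ← Finset.mul_sum]
          rw [D.map_one_eq_zero] at e2
          linear_combination e2 - lam j * e1)
      by_contra u0
      obtain ⟨a, ha, b, hb, eab⟩ := IntermediateField.mem_adjoin_iff_div.1 hu'
      obtain ⟨n, hn⟩ := hW a ha
      obtain ⟨n', hn'⟩ := hW b hb
      refine hs j (Finset.mem_insert_self _ _) (div_one (x j) ▸ alg_of_const hV h1 D (hxm i₀)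
        (hD ▸ one_ne_zero) (mem_one (hxm j)) (mem_one h1) one_ne_zero ?_)
      rw [div_one]
      exact irr hV h1 D hκ (hxm j) (mono_mem h1 hn (Nat.le_add_right n n'))
        (mono_mem h1 hn' (Nat.le_add_left _ _)) (hx0 j) (eab ▸ div_ne_zero u0 g0)
        (eab ▸ sub_eq_zero.1 e3)
  exact (map_eq_zero _).1 (elim s hs _ _ (F.algebraMap_mem u) (fun i => F.algebraMap_mem _) e)

theorem Cfg.core {A : VF K} {T : ℕ} {κ : K} {α : Fin 3 → K} {x y : Fin 3 → ℕ → K}
    (H : Cfg A T κ α x y) {i₀ : Fin 3} (hinj : Function.Injective (x i₀))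
    (hnd : ∀ (l : ℕ) (S : Finset (Fin 3)), i₀ ∉ S → ∑ i ∈ S, α i * y i l ≠ 1) : False := by
  classical
  let U := hyperfilter ℕ
  let V : Subring (ℕ → K) :=
    { carrier := {f | ∀ᶠ l in U, f l ∈ A.O}
      mul_mem' := fun h h' => (h.and h').mono fun _ h => mul_mem h.1 h.2
      one_mem' := .of_forall fun _ => one_mem A.O
      add_mem' := fun h h' => (h.and h').mono fun _ h => add_mem h.1 h.2
      zero_mem' := .of_forall fun _ => zero_mem A.O
      neg_mem' := fun h => h.mono fun _ h => neg_mem h }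
  obtain ⟨L, _, _, A', W', σ, hW, hDv, hπ, hae⟩ := exists_lim U V
    (fun f => (U.em fun l => f l ∈ A.O).imp_right fun h =>
      h.mono fun l h => (A.O.mem_or_inv_mem _).resolve_left h)
    (fun f g e h => (e.and h).mono fun l h => h.1 ▸ h.2) (p := fun _ => A.π)
    (.of_forall fun _ => A.mem) (fun _ => A.ne) (fun h => A.inv h.exists.choose_spec)
    fun c => (A.arch c).imp fun m h => .of_forall fun _ => h
  have : CharZero L := (RingHom.charZero_iff (algebraMap K L).injective).1 inferInstance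
  have hW' : ∀ (f : ℕ → K) (m : ℤ), (∀ l, A.Dv m (f l)) → f ∈ W' := fun f m h =>
    (hW f).2 ⟨m.natAbs, .of_forall fun l => by
      have := (h l).mono (n := -m.natAbs) (by omega)
      rwa [Dv, zpow_neg, zpow_natCast, div_inv_eq_mul, mul_comm] at this⟩
  have hD : ∀ (f : W') (m : ℤ), (∀ l, A.Dv m (f.1 l)) → A'.Dv m (σ f) := fun f m h =>
    (hDv f m).2 (.of_forall h)
  have hO : ∀ c ∈ A.O, algebraMap K L c ∈ A'.O := fun c hc =>
    dv_zero_iff.1 (σ.commutes c ▸ hD _ 0 fun _ => dv_zero_iff.2 hc)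
  have one : A.Dv 0 1 := dv_zero_iff.2 (one_mem _)
  let X : Fin 3 → W' := fun i => ⟨x i, hW' _ 0 fun l => by
    simpa using ((H.hx i l).mono (by norm_num)).add one⟩
  let Y : Fin 3 → W' := fun i => ⟨y i, hW' _ 0 fun l => by
    simpa using ((H.hy i l).mono (by norm_num)).add one⟩
  obtain ⟨c, hc⟩ := H.hb
  have hV : HB c (W K fun i => σ (X i)) := fun n ι _ f hf hi => by
    choose F hF e using fun i => W_lift _ n (hf i)
    have e1 : ∀ G : R3 K, MvPolynomial.aeval x G = W'.val (MvPolynomial.aeval X G) := fun G => by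
      rw [MvPolynomial.comp_aeval_apply]; rfl
    refine hc n ι (fun i => MvPolynomial.aeval x (F i)) (fun i => ?_) ?_
    · have : W K x = (W K (MvPolynomial.X : Fin 3 → R3 K)).map
          (MvPolynomial.aeval x : R3 K →ₐ[K] _).toLinearMap := by
        rw [W, W, Submodule.map_span, Set.image_insert_eq, ← Set.range_comp]
        simp [Function.comp_def]
      rw [this, ← Submodule.map_pow]
      exact ⟨_, hF i, rfl⟩
    · simp only [e1]
      refine LinearIndependent.map' (LinearIndependent.of_comp σ.toLinearMap ?_) W'.val.toLinearMap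
        (LinearMap.ker_eq_bot.2 Subtype.val_injective)
      rwa [show _ ∘ _ = f from funext fun i => by simp [← e, MvPolynomial.comp_aeval_apply]]
  obtain ⟨Z, Q, hZ, hQ0, hQZ, hQ, hQx⟩ := H.hZ
  have hsp : ∀ i, (∀ c, ¬ ∀ᶠ l in U, x i l = c) → Sp K A' (T + T) (σ (X i)) := fun i h P => by
    let G : K → Prop := fun a => ∃ u, A.Dv (-(T + T : ℕ)) u ∧
      (Polynomial.derivative P).eval a = P.eval a * u
    have hfin : {a | a ∈ Set.range (x i) ∧ ¬ G a}.Finite := by
      by_contra hf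
      obtain ⟨S, hS, hc⟩ := Set.Infinite.exists_subset_card_eq hf (P.natDegree + 1)
      obtain ⟨a, ha, h⟩ := sep (A := A) (B := -(T + T : ℕ)) _ P le_rfl S (by omega) fun a ha b hb => by
        obtain ⟨l, rfl⟩ := (hS ha).1
        obtain ⟨m, rfl⟩ := (hS hb).1
        have := ((hQ l).mul (hQ m)).mulo
          (hZ _ (sub_mem (mul_mem (hQZ m) (hQx i l)) (mul_mem (hQZ l) (hQx i m))))
        rw [← mul_assoc, ← mul_assoc, mul_comm (Q m), ← mul_sub, mul_inv,
          mul_inv_cancel_left₀ (mul_ne_zero (hQ0 l) (hQ0 m))] at this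
        exact this.mono (by omega)
      exact (hS ha).2 h
    have hev : ∀ᶠ l in U, G (x i l) := ((eventually_all_finite hfin).2 fun c _ =>
      Ultrafilter.eventually_not.2 (h c)).mono fun l hl => by_contra fun h' => hl _ ⟨⟨l, rfl⟩, h'⟩ rfl
    have : ∀ l, ∃ u, A.Dv (-(T + T : ℕ)) u ∧ (G (x i l) →
        (Polynomial.derivative P).eval (x i l) = P.eval (x i l) * u) := fun l => by
      by_cases h : G (x i l)
      · exact h.imp fun u h => ⟨h.1, fun _ => h.2⟩
      · exact ⟨0, dv0 _, fun h' => absurd h' h⟩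
    choose u hu e using this
    have e1 : ∀ (P : Polynomial K) l, (Polynomial.aeval (X i) P).1 l = P.eval (x i l) := fun P l =>
      (Polynomial.aeval_algHom_apply ((Pi.evalAlgHom K _ l).comp W'.val) (X i) P).symm
    refine ⟨σ ⟨u, hW' _ _ hu⟩, hD _ _ hu, ?_⟩
    rw [Polynomial.aeval_algHom_apply, Polynomial.aeval_algHom_apply, ← map_mul]
    exact hae _ _ (hev.mono fun l hl => by simpa [e1] using e l hl)
  let S := Finset.univ.filter fun i => ∃ c, ∀ᶠ l in U, x i l = c
  have hS : ∀ i ∈ S, ∃ c, ∀ᶠ l in U, x i l = c := fun i hi => (Finset.mem_filter.1 hi).2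
  have hi₀ : ∀ c, ¬ ∀ᶠ l in U, x i₀ l = c := fun c h =>
    (Set.subsingleton_singleton.preimage hinj (s := {c})).finite.notMem_hyperfilter h
  choose! q hq using hS
  have hev := (eventually_all_finset S).2 hq
  obtain ⟨l₀, hl₀⟩ := hev.exists
  have hY : ∀ i ∈ S, σ (Y i) = algebraMap K L (y i l₀) := fun i hi => by
    rw [← σ.commutes]
    refine hae _ _ (hev.mono fun l hl => sub_eq_zero.1 (eq_zero (A := A) 0 fun τ => ?_))
    simpa [hl i hi, hl₀ i hi] using (H.yx τ i l).sub (H.yx τ i l₀)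
  refine hnd l₀ S (fun h => hi₀ _ (hq _ h)) (sub_eq_zero.1 (core_L (A := A') (p := A.π)
    ((σ.commutes _).symm.trans (hπ _)) (fun n => by simpa using hO _ (H.hq n)) H.k3 (hO _ H.k1)
    (y := fun i => σ (Y i)) hV (fun i => by simpa using hD (X i - 1) 1 (H.hx i)) (fun τ i => ?_)
    (hsp i₀ hi₀) Sᶜ (fun i hi => (hsp i fun c h => Finset.mem_compl.1 hi
      (Finset.mem_filter.2 ⟨Finset.mem_univ _, c, h⟩)).trans) _ α ?_))
  · have := hD (Y i - ∑ j ∈ Finset.range τ, Ring.choose κ j • (X i - 1) ^ j) τ fun l => by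
      simpa [tb] using H.yx τ i l
    simpa [tb, Algebra.smul_def, Ring.map_choose] using this
  · have : σ (∑ i, α i • Y i) = 1 := by
      rw [← map_one σ]
      exact congrArg σ (Subtype.ext (funext fun l => by simpa using H.rel l))
    rw [map_sum, ← Finset.sum_add_sum_compl S] at this
    simp only [Algebra.smul_def, map_mul, AlgHom.commutes] at this
    rw [Finset.sum_congr rfl fun i hi => by rw [hY i hi]] at this
    simp only [map_sub, map_sum, map_mul, map_one]
    linear_combination this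

end Pool.Agent.P.MP_2c7719_nt.Rz
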