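import Pool.Agent.P.MP_2c7719_nt.Rz.Det
import Pool.Agent.P.MP_2c7719_nt.Win.Diag

/-! A linear bound for the Hilbert function of a sequence of rational points in a small patch. -/

namespace Pool.Agent.P.MP_2c7719_nt.Rz

open VF Win MvPolynomial

set_option linter.unusedSectionVars false

variable {K : Type} [Field K] [CharZero K] {A : VF K}

theorem choose_succ (r : K) (j : ℕ) :
    Ring.choose r (j + 1) = ((j + 1 : ℕ) : K)⁻¹ * (Ring.choose r j * (r - j)) := by
  have := Ring.choose_smul_choose r (n := j + 1) (k := j) (by omega)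
  rw [Nat.choose_succ_self_right, Nat.add_sub_cancel_left, Ring.choose_one_right, nsmul_eq_mul]
    at this
  rw [← this, inv_mul_cancel_left₀ (Nat.cast_ne_zero.2 j.succ_ne_zero)]

theorem choose_mem (hq : ∀ n : ℕ, (n : K)⁻¹ ∈ A.O) {r : K} (hr : r ∈ A.O) (j : ℕ) :
    Ring.choose r j ∈ A.O := by
  induction j with
  | zero => simp
  | succ j ih => rw [choose_succ]; exact mul_mem (hq _) (mul_mem ih (sub_mem hr (natCast_mem _ _)))

/-- the truncated binomial series -/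
noncomputable def tb (r : K) (τ : ℕ) (u : K) : K := ∑ j ∈ Finset.range τ, Ring.choose r j * u ^ j

theorem slopes2 {α : Fin 3 → K} (h1 : α 1 ≠ 0) (h2 : α 2 ≠ 0) (hs : ∑ i, α i = 1) :
    ∃ l : Fin 3 → K, Function.Injective l ∧ (∀ i, l i ≠ 0) ∧ ∑ i, α i * l i = 0 := by
  classical
  by_cases h0 : α 0 = 0
  · obtain ⟨t, ht⟩ := Infinite.exists_notMem_finset ({0, α 2, -α 1} : Finset K)
    simp only [Finset.mem_insert, Finset.mem_singleton, not_or] at ht
    rw [Fin.sum_univ_three, h0] at hs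
    have a : α 2 ≠ -α 1 := fun h => one_ne_zero (α := K) (by linear_combination h - hs)
    refine ⟨![t, α 2, -α 1], fun i j h => ?_, fun i => ?_, by simp [Fin.sum_univ_three, h0, mul_comm]⟩
    · fin_cases i <;> fin_cases j <;> simp_all [eq_comm]
    · fin_cases i <;> simp_all
  · exact slopes fun i => by fin_cases i <;> assumption

theorem aeval_dv {a b : Fin 3 → K} (ha : ∀ i, a i ∈ A.O) {τ : ℕ}
    (h : ∀ i, A.Dv τ (a i - b i)) (F : MvPolynomial (Fin 3) A.O) :
    aeval a F ∈ A.O ∧ A.Dv τ (aeval a F - aeval b F) := by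
  induction F using MvPolynomial.induction_on with
  | C c => exact ⟨by simp, by simpa using dv0 _⟩
  | add p q hp hq =>
    rw [map_add, map_add, add_sub_add_comm]
    exact ⟨add_mem hp.1 hq.1, hp.2.add hq.2⟩
  | mul_X p i hp =>
    simp only [map_mul, aeval_X]
    refine ⟨mul_mem hp.1 (ha i), ?_⟩
    convert (Dv.omul hp.1 (h i)).add (hp.2.mulo (sub_mem (ha i) ((h i).mem (by positivity))))
      using 1
    ring

theorem aeval_dvd {R B : Type} [CommRing R] [CommRing B] [Algebra R B] {a b : Fin 3 → B} {c : B}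
    (h : ∀ i, c ∣ a i - b i) (F : MvPolynomial (Fin 3) R) : c ∣ aeval a F - aeval b F := by
  induction F using MvPolynomial.induction_on with
  | C c => simp
  | add p q hp hq => rw [map_add, map_add, add_sub_add_comm]; exact hp.add hq
  | mul_X p i hp =>
    simp only [map_mul, aeval_X]
    convert ((h i).mul_left (aeval a p)).add (hp.mul_right (b i)) using 1
    ring

/-- a sequence of points of bounded height in a small patch of the surface
`∑ α i * x i ^ κ = 1` -/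
structure Cfg (A : VF K) (T : ℕ) (κ : K) (α : Fin 3 → K) (x y : Fin 3 → ℕ → K) : Prop where
  hq : ∀ n : ℕ, (n : K)⁻¹ ∈ A.O
  hZ : ∃ (Z : Subring K) (Q : ℕ → K), (∀ z ∈ Z, z⁻¹ ∈ A.O) ∧ (∀ l, Q l ≠ 0) ∧ (∀ l, Q l ∈ Z) ∧
    (∀ l, A.Dv (-T) (Q l)) ∧ ∀ i l, Q l * x i l ∈ Z
  k1 : κ ∈ A.O
  k2 : κ⁻¹ ∈ A.O
  k3 : ∀ q : ℚ, κ ≠ q
  a0 : ∀ i, α i ∈ A.O
  a1 : α 1 ≠ 0
  a1' : (α 1)⁻¹ ∈ A.O
  a2 : α 2 ≠ 0
  as : ∑ i, α i = 1
  rel : ∀ l, ∑ i, α i * y i l = 1
  hx : ∀ i l, A.Dv 1 (x i l - 1)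
  hy : ∀ i l, A.Dv 2 (y i l - 1)
  xy : ∀ (τ : ℕ) i l, A.Dv τ (x i l - tb κ⁻¹ τ (y i l - 1))
  yx : ∀ (τ : ℕ) i l, A.Dv τ (y i l - tb κ τ (x i l - 1))

theorem Cfg.hb {T : ℕ} {κ : K} {α : Fin 3 → K} {x y : Fin 3 → ℕ → K} (H : Cfg A T κ α x y) :
    ∃ c : ℕ, ∀ (n : ℕ) (ι : Type) [Fintype ι] (f : ι → ℕ → K), (∀ i, f i ∈ W K x ^ n) →
      LinearIndependent K f → Fintype.card ι ≤ c * (n + 1) := by
  classical
  obtain ⟨Z, Q, hZ, hQ0, hQZ, hQ, hQx⟩ := H.hZ
  have hxO : ∀ i l, x i l ∈ A.O := fun i l => by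
    simpa using add_mem ((H.hx i l).mem (by norm_num)) (one_mem _)
  let t : ℕ → K := fun l => (y 0 l - 1) / A.π
  let w : ℕ → K := fun l => (y 2 l - 1) / A.π
  have hdv : ∀ i l, A.Dv 1 ((y i l - 1) / A.π) := fun i l => by
    simpa [div_eq_mul_inv] using (H.hy i l).mul (dv_pi (-1))
  let π : A.O := ⟨A.π, A.mem⟩
  let ℓ : Fin 3 → MvPolynomial (Fin 2) A.O := ![X 0,
    C ⟨-(α 0 * (α 1)⁻¹), neg_mem (mul_mem (H.a0 0) H.a1')⟩ * X 0 +
      C ⟨-(α 2 * (α 1)⁻¹), neg_mem (mul_mem (H.a0 2) H.a1')⟩ * X 1, X 1]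
  let ξ : ℕ → Fin 3 → MvPolynomial (Fin 2) A.O := fun τ i =>
    ∑ j ∈ Finset.range τ, C ⟨_, choose_mem H.hq H.k2 j⟩ * ℓ i ^ j
  have hℓ : ∀ {B : Type} [CommRing B] [Algebra A.O B] [Algebra K B] [IsScalarTower A.O K B]
      (u : Fin 3 → B), ∑ i, α i • u i = 0 → ∀ τ i, aeval ![u 0, u 2] (ξ τ i) =
        ∑ j ∈ Finset.range τ, Ring.choose κ⁻¹ j • u i ^ j := fun {B} _ _ _ _ u hu τ i => by
    have e : ∀ c : A.O, algebraMap A.O B c = algebraMap K B c := fun c =>
      IsScalarTower.algebraMap_apply _ K _ c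
    have : aeval ![u 0, u 2] (ℓ i) = u i := by
      fin_cases i
      · simp [ℓ]
      · have h1 := congrArg ((α 1)⁻¹ • ·) hu
        simp only [Fin.sum_univ_three, smul_add, smul_smul, inv_mul_cancel₀ H.a1, one_smul,
          smul_zero] at h1
        simp only [Algebra.smul_def, mul_comm (α 1)⁻¹] at h1
        simp only [ℓ, Fin.mk_one, Matrix.cons_val_one, Matrix.cons_val_zero, map_add, map_mul,
          aeval_C, aeval_X, e, map_neg] at h1 ⊢
        linear_combination -h1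
      · simp [ℓ]
    simp only [ξ, map_sum, map_mul, map_pow, this, aeval_C, e, Algebra.smul_def]
  let ev : MvPolynomial (Fin 2) A.O →ₐ[A.O] (ℕ → K) := aeval ![y 0 - 1, y 2 - 1]
  have hev : ∀ G : MvPolynomial (Fin 2) A.O, ev G =
      ∑ m ∈ G.support, (coeff m G * π ^ (m 0 + m 1)) • (t ^ m 0 * w ^ m 1) := fun G => by
    rw [aeval_def, eval₂_eq']
    refine Finset.sum_congr rfl fun m _ => funext fun l => ?_
    have := A.ne
    simp [t, w, π, Algebra.smul_def, div_pow, pow_add]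
    field_simp
  have hap : ∀ (τ : ℕ) (F : MvPolynomial (Fin 3) A.O) l, aeval x F l ∈ A.O ∧
      A.Dv τ (aeval x F l - ev (aeval (ξ τ) F) l) := fun τ F l => by
    have e := fun z : Fin 3 → ℕ → K => comp_aeval_apply z (Pi.evalAlgHom A.O (fun _ => K) l) F
    simp only [Pi.evalAlgHom_apply] at e
    rw [comp_aeval_apply, e, e]
    refine aeval_dv (hxO · l) (fun i => ?_) F
    have := hℓ (fun i => y i - 1) (funext fun l => by
      have h1 := H.rel l
      have h2 := H.as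
      simp only [Fin.sum_univ_three] at h1 h2 ⊢
      simp
      linear_combination h1 - h2) τ i
    simp only [ev, this]
    simpa [tb] using H.xy τ i l
  have main : ∀ n M : ℕ, (2 * T * n + 1 ≤ M ∨ ∃ (s : Finset (Fin 2 →₀ ℕ))
      (g : (Fin 2 →₀ ℕ) → A.O), (∃ m ∈ s, IsUnit (g m)) ∧ (∀ m, IsUnit (g m) → m 0 < M ∧ m 1 < M) ∧
        ∑ m ∈ s, g m • (t ^ m 0 * w ^ m 1) ∈ Ps A (2 * T * n + 1)) →
      ∀ (ι : Type) [Fintype ι] (f : ι → ℕ → K), (∀ i, f i ∈ W K x ^ n) → LinearIndependent K f →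
        Fintype.card ι ≤ 4 * M * (2 * T * n + 1) := fun n M h ι _ f hf hi => by
    let S : ℕ → Set (ℕ → K) := fun n =>
      {f | (∃ F : MvPolynomial (Fin 3) A.O, f = aeval x F) ∧ ∀ l, Q l ^ n * f l ∈ Z}
    have hS : ∀ n, W K x ^ n ≤ Submodule.span K (S n) := fun n => by
      induction n with
      | zero =>
        rw [pow_zero, Submodule.one_eq_span]
        exact Submodule.span_mono (Set.singleton_subset_iff.2 ⟨⟨1, by simp⟩, by simp⟩)
      | succ n ih =>
        rw [pow_succ]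
        refine (mul_le_mul_left ih _).trans ?_
        rw [W, Submodule.span_mul_span]
        refine Submodule.span_mono ?_
        rintro _ ⟨f, ⟨⟨F, rfl⟩, h⟩, g, rfl | ⟨i, rfl⟩, rfl⟩
        · exact ⟨⟨F, by simp⟩, fun l => by
            simpa [pow_succ', mul_assoc] using mul_mem (hQZ l) (h l)⟩
        · exact ⟨⟨F * X i, by simp⟩, fun l => by
            simpa [pow_succ, mul_mul_mul_comm] using mul_mem (h l) (hQx i l)⟩
    refine card_le_of_span (fun ι _ f hf hi => ?_) (fun i => hS n (hf i)) hi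
    refine (card_le_two hZ hQ0 hQ le_rfl (mo t w M (2 * T * n + 1)) hi (fun i => (hf i).2)
      (fun i l => ?_) fun i => ?_).trans (by simp; ring_nf; rfl)
    · obtain ⟨F, hF⟩ := (hf i).1
      exact hF ▸ (hap 0 F l).1
    · obtain ⟨F, hF⟩ := (hf i).1
      obtain ⟨g, hg, p, hp, e⟩ := Submodule.mem_sup.1 (hev (aeval (ξ (2 * T * n + 1)) F) ▸
        Submodule.sum_mem _ fun m _ => Submodule.smul_mem _ _ (reduce (hdv 0) (hdv 2) h _ _))
      refine ⟨g, hg, fun l => ?_⟩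
      convert (hap (2 * T * n + 1) F l).2.add (hp l) using 1
      rw [← e, hF, Pi.add_apply]
      ring
  set j := 4 * (6 * T + 1) ^ 2 with hj
  have h1 : (1 : ℕ → K) ∈ W K x := Submodule.subset_span (Set.mem_insert _ _)
  have hxm : ∀ i, x i ∈ W K x := fun i => Submodule.subset_span (Set.mem_insert_of_mem _ ⟨i, rfl⟩)
  have hdep : ¬ LinearIndependent K fun s : Fin 3 → Fin (j + 1) =>
      x 0 ^ (s 0 : ℕ) * x 1 ^ (s 1 : ℕ) * x 2 ^ (s 2 : ℕ) := fun h => by
    have := main (3 * j) _ (.inl le_rfl) _ _ (fun s => mono_mem h1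
      (pmul (pmul (Submodule.pow_mem_pow _ (hxm 0) _) (Submodule.pow_mem_pow _ (hxm 1) _))
        (Submodule.pow_mem_pow _ (hxm 2) _))
      (by have := (s 0).2; have := (s 1).2; have := (s 2).2; omega)) h
    simp only [Fintype.card_pi, Fintype.card_fin, Finset.prod_const, Finset.card_univ] at this
    have h2 : 2 * T * (3 * j) + 1 ≤ (6 * T + 1) * (j + 1) := by nlinarith
    have h3 := this.trans (Nat.mul_le_mul (Nat.mul_le_mul_left 4 h2) h2)
    rw [mul_assoc, mul_mul_mul_comm, ← sq, ← mul_assoc, ← hj] at h3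
    nlinarith
  obtain ⟨c, hc, s₀, hs₀⟩ := Fintype.not_linearIndependent_iff.1 hdep
  obtain ⟨k, hk⟩ := exists_dv_fam (A := A) c
  have hk' : ∀ s, A.π ^ k * c s ∈ A.O := fun s => by simpa [Dv, mul_comm] using hk s
  let G : MvPolynomial (Fin 3) A.O := ∑ s, C ⟨_, hk' s⟩ *
    (X 0 ^ (s 0 : ℕ) * X 1 ^ (s 1 : ℕ) * X 2 ^ (s 2 : ℕ))
  have hG : aeval x G = 0 := by
    have := congrArg (A.π ^ k • ·) hc
    simp only [Finset.smul_sum, smul_smul, smul_zero] at this
    simp only [G, map_sum, map_mul, map_pow, aeval_C, aeval_X, ← Algebra.smul_def]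
    exact this
  obtain ⟨l', hli', h0', hl'⟩ := slopes2 H.a1 H.a2 H.as
  obtain ⟨k', hk''⟩ := exists_dv_fam (A := A) l'
  set l : Fin 3 → K := fun i => A.π ^ k' * l' i with hl
  have hlO : ∀ i, l i ∈ A.O := fun s => by simpa [Dv, mul_comm, hl] using hk'' s
  have pk := pow_ne_zero k' A.ne
  obtain ⟨Z₀, hZ₀⟩ := zero_est ((j + 1) ^ 3) 0
  have hnd : ¬ PowerSeries.X ^ Z₀ ∣ aeval (fun i => bs (l i) κ⁻¹) G := fun h => by
    have := hZ₀ l (fun i j h => hli' (mul_left_cancel₀ pk h)) (fun i => mul_ne_zero pk (h0' i))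
      Finset.univ (fun (s : Fin 3 → Fin (j + 1)) i => ((s i : ℕ) : K) * κ⁻¹)
      (fun s => Polynomial.C (A.π ^ k * c s)) (by simp) (fun s _ s' _ hne hint => hne ?_)
      (fun _ _ => (Polynomial.natDegree_C _).le)
      (by simpa [G, ph, bs_pow, PowerSeries.algebraMap_apply] using h) s₀ (Finset.mem_univ _)
    · exact mul_ne_zero (pow_ne_zero k A.ne) hs₀ (Polynomial.C_eq_zero.1 this)
    ext i
    obtain ⟨z, hz⟩ := hint i
    have k0 : κ ≠ 0 := by simpa using H.k3 0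
    rw [Pi.sub_apply, ← sub_mul, mul_inv_eq_iff_eq_mul₀ k0] at hz
    by_cases z0 : z = 0
    · simpa [z0, sub_eq_zero] using hz
    · refine absurd ?_ (H.k3 ((((s i : ℕ) : ℚ) - (s' i : ℕ)) / z))
      have : (z : K) ≠ 0 := Int.cast_ne_zero.2 z0
      push_cast
      rw [hz, mul_div_cancel_left₀ _ this]
  rw [PowerSeries.X_pow_dvd_iff] at hnd
  push Not at hnd
  obtain ⟨z, hz, hγ⟩ := hnd
  set γ := PowerSeries.coeff z (aeval (fun i => bs (l i) κ⁻¹) G) with hγd
  obtain ⟨a, ha⟩ := A.exists_dv γ⁻¹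
  refine ⟨4 * (a + Z₀ + 1) * (2 * T + 1), fun n ι _ f hf hi =>
    (main n (a + Z₀ + 1) (.inr ?_) ι f hf hi).trans (by nlinarith)⟩
  set τ := 2 * T * n + 1 + (a + Z₀)
  set G' := aeval (ξ τ) G with hG'
  let g : (Fin 2 →₀ ℕ) → A.O := fun m => coeff m G' * π ^ (m 0 + m 1)
  have hγ' : A.π ^ z * γ = ∑ m ∈ G'.support,
      if z = m 0 + m 1 then (g m : K) * (l 0 ^ m 0 * l 2 ^ m 1) else 0 := by
    let u : Fin 3 → PowerSeries K := fun i => l i • PowerSeries.X
    have h2 : PowerSeries.X ^ τ ∣ aeval (fun i => bs (l i) κ⁻¹) G - aeval ![u 0, u 2] G' := by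
      rw [hG', comp_aeval_apply]
      refine aeval_dvd (fun i => ?_) G
      rw [hℓ u (by
        simp only [u, hl, smul_smul, mul_left_comm (α _), ← Finset.sum_smul, ← Finset.mul_sum, hl',
          mul_zero, zero_smul]), PowerSeries.X_pow_dvd_iff]
      intro m hm
      simp [u, bs, smul_pow, PowerSeries.coeff_X_pow, hm, mul_comm]
    have h3 := PowerSeries.X_pow_dvd_iff.1 h2 z (by omega)
    rw [map_sub, sub_eq_zero, ← hγd, aeval_def, eval₂_eq', map_sum] at h3
    rw [h3, Finset.mul_sum]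
    refine Finset.sum_congr rfl fun m _ => ?_
    simp [u, g, π, smul_pow, PowerSeries.algebraMap_apply, smul_smul, ← pow_add,
      PowerSeries.coeff_X_pow]
    split_ifs with h
    · rw [h]; ring
    · rfl
  have hne : G'.support.Nonempty := by
    by_contra h
    rw [Finset.not_nonempty_iff_eq_empty.1 h, Finset.sum_empty] at hγ'
    exact mul_ne_zero (pow_ne_zero _ A.ne) hγ hγ'
  obtain ⟨m₁, hm₁, hmax⟩ := G'.support.exists_max_image (fun m => A.O.valuation (g m)) hne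
  have g0 : (g m₁ : K) ≠ 0 := by
    simpa [g, π, A.ne] using hm₁
  have hg : ∀ m, (g m : K) / g m₁ ∈ A.O := fun m => by
    by_cases hm : m ∈ G'.support
    · rw [← A.O.valuation_le_one_iff, map_div₀]
      exact div_le_one_of_le₀ (hmax m hm) zero_le
    · simp [g, notMem_support_iff.1 hm]
  have hμ : A.Dv (-(a + Z₀)) (g m₁ : K)⁻¹ := by
    have h2 : A.π ^ z * γ / g m₁ ∈ A.O := by
      rw [hγ', Finset.sum_div]
      refine sum_mem fun m _ => ?_
      split_ifs
      · rw [mul_div_right_comm]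
        exact mul_mem (hg m) (mul_mem (pow_mem (hlO 0) _) (pow_mem (hlO 2) _))
      · simp
    have := (Dv.omul h2 (ha.mul (dv_pi (-z)))).mono (n := -(a + Z₀)) (by omega)
    convert this using 1
    have := A.ne
    rw [zpow_neg, zpow_natCast]
    field_simp
  refine ⟨G'.support, fun m => ⟨_, hg m⟩, ⟨m₁, hm₁, by
    convert isUnit_one; exact Subtype.ext (div_self g0)⟩, fun m hm => ?_, fun l => ?_⟩
  · obtain ⟨v, hv⟩ := hm.exists_right_inv
    have h2 : A.Dv ((m 0 + m 1 : ℕ) + -(a + Z₀)) ((g m : K) / g m₁ * v) := by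
      refine Dv.mulo (div_eq_mul_inv (g m : K) _ ▸ Dv.mul ?_ hμ) v.2
      simpa [g, π, ← zpow_natCast] using Dv.omul (coeff m G').2 (dv_pi (m 0 + m 1 : ℕ))
    rw [show (g m : K) / g m₁ * v = 1 from congrArg Subtype.val hv] at h2
    have := mt h2.mono not_dv_one
    omega
  · have h2 := ((hap τ G l).2.neg.mul hμ).mono (n := (2 * T * n + 1 : ℕ)) (by omega)
    convert h2 using 1
    rw [hG, ← hG', hev]
    simp [g, Finset.sum_mul, Algebra.smul_def]
    exact Finset.sum_congr rfl fun m _ => by ring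

end Pool.Agent.P.MP_2c7719_nt.Rz
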