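import Pool.Agent.P.MP_2c7719_nt.Rz.St
import Pool.Agent.P.MP_2c7719_nt.Rz.Hb

/-! Real estimates for near solutions. -/

namespace Pool.Agent.P.MP_2c7719_nt.Rz

theorem tail {r u M : ℝ} (hM : 1 ≤ M) (hr : |r| ≤ M) (hu : M * |u| ≤ 1 / 2) (τ : ℕ) :
    |(1 + u) ^ r - tb r τ u| ≤ 2 * (M * |u|) ^ τ := by
  have h1 : ∀ j, |Ring.choose r j| ≤ M ^ j := fun j => by
    induction j with
    | zero => simp
    | succ j ih =>
      have : (0 : ℝ) < (j + 1 : ℕ) := by positivity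
      rw [choose_succ, abs_mul, abs_mul, abs_inv, abs_of_pos this, inv_mul_le_iff₀ this, pow_succ,
        mul_left_comm]
      refine mul_le_mul ih ((abs_sub _ _).trans ?_) (abs_nonneg _) (by positivity)
      rw [Nat.abs_cast]
      push_cast
      nlinarith [Nat.cast_nonneg (α := ℝ) j]
  have h2 := (Real.one_add_rpow_hasFPowerSeriesOnBall_zero (a := r)).hasSum (y := u) (by
    rw [Metric.mem_eball, edist_zero_right, ← ofReal_norm, ENNReal.ofReal_lt_one,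
      Real.norm_eq_abs]
    nlinarith [abs_nonneg u])
  simp only [binomialSeries_apply, List.ofFn_const, List.prod_replicate, smul_eq_mul, zero_add] at h2
  have := norm_sub_le_of_geometric_bound_of_hasSum (C := 1) (r := M * |u|) (by linarith)
    (fun j => by
      rw [Real.norm_eq_abs, abs_mul, abs_pow, one_mul, mul_pow]
      exact mul_le_mul_of_nonneg_right (h1 j) (by positivity)) h2 τ
  rw [abs_sub_comm]
  refine this.trans ?_
  rw [div_le_iff₀ (by linarith)]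
  nlinarith [pow_nonneg (mul_nonneg (by linarith : 0 ≤ M) (abs_nonneg u)) τ]

/-- the signed powers of the ratios -/
noncomputable def rr (α : ℝ) (q : Fin 4 → ℕ) (i : Fin 3) : ℝ :=
  ![1, 1, -1] i * ((q i.castSucc : ℝ) / q 3) ^ α

theorem facts {α ρ : ℝ} {T m : ℕ} {q : Fin 4 → ℕ} (hq : Od q) (h2 : 2 ≤ ρ) (h3 : ρ ≤ q 3)
    (h4 : (q 1 : ℝ) ≤ ρ ^ T) (h5 : |sg α q| ≤ ρ ^ T) (hm : (m : ℝ) + T + T + 2 ≤ α)
    (h6 : 2 ^ α ≤ ρ) :
    |∑ i, rr α q i - 1| ≤ (ρ ^ m)⁻¹ ∧ (∀ i, |rr α q i| ≤ 3) ∧ 1 ≤ |rr α q 1| ∧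
      (ρ ^ (T + 1))⁻¹ ≤ |rr α q 2| ∧ ∀ i₀ : Fin 3, (i₀ = 0 → q 3 ≤ 2 * q 0) →
        ∀ S : Finset (Fin 3), i₀ ∉ S → (ρ ^ (T + 1))⁻¹ ≤ |∑ i ∈ S, rr α q i - 1| := by
  obtain ⟨a1, ac, cd, db⟩ := hq
  have a1' : (1 : ℝ) ≤ q 0 := by exact_mod_cast a1
  have ad : (q 0 : ℝ) + 1 ≤ q 3 := by exact_mod_cast ac.trans_le cd
  have cd' : (q 2 : ℝ) ≤ q 3 := by exact_mod_cast cd
  have db' : (q 3 : ℝ) + 1 ≤ q 1 := by exact_mod_cast db
  have d0 : (0 : ℝ) < q 3 := by linarith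
  have hα : 2 ≤ α := by linarith [Nat.cast_nonneg (α := ℝ) m, Nat.cast_nonneg (α := ℝ) T]
  have e0 : rr α q 0 = ((q 0 : ℝ) / q 3) ^ α := by simp [rr]
  have e1 : rr α q 1 = ((q 1 : ℝ) / q 3) ^ α := by simp [rr]
  have e2 : rr α q 2 = -((q 2 : ℝ) / q 3) ^ α := by simp [rr]
  have hs : |∑ i, rr α q i - 1| ≤ (ρ ^ (m + (T + 1)))⁻¹ := by
    have p : (0 : ℝ) < (q 3 : ℝ) ^ α := by positivity
    rw [show ∑ i, rr α q i - 1 = sg α q / (q 3 : ℝ) ^ α by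
      rw [Fin.sum_univ_three, e0, e1, e2, sg]
      simp only [Real.div_rpow (Nat.cast_nonneg _) d0.le]
      field_simp
      ring, abs_div, abs_of_pos p, div_le_iff₀ p, le_inv_mul_iff₀ (by positivity)]
    refine (mul_le_mul_of_nonneg_left h5 (by positivity)).trans ?_
    rw [← pow_add, ← Real.rpow_natCast]
    exact (Real.rpow_le_rpow_of_exponent_le (by linarith) (by push_cast; linarith)).trans
      (Real.rpow_le_rpow (by linarith) h3 (by linarith))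
  have hp : ∀ {i j : ℕ}, i ≤ j → (ρ ^ j)⁻¹ ≤ (ρ ^ i)⁻¹ := fun h =>
    inv_anti₀ (by positivity) (pow_le_pow_right₀ (by linarith) h)
  have hs' := abs_le.1 (hs.trans (hp (Nat.le_add_left _ _)))
  set t := (ρ ^ (T + 1))⁻¹
  have t0 : 0 < t := by positivity
  have t1 : 2 * t ≤ (q 3 : ℝ)⁻¹ := by
    rw [← div_eq_mul_inv, div_le_iff₀ (by positivity), le_inv_mul_iff₀ d0, pow_succ]
    exact mul_le_mul (by linarith) h2 (by norm_num) (by positivity)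
  have t2 : (q 3 : ℝ)⁻¹ ≤ ρ⁻¹ := inv_anti₀ (by linarith) h3
  have t3 : ρ⁻¹ ≤ 2⁻¹ := inv_anti₀ (by norm_num) h2
  have A0 : 0 ≤ rr α q 0 := by rw [e0]; positivity
  have A1 : rr α q 0 ≤ 1 - (q 3 : ℝ)⁻¹ := by
    rw [e0]
    refine (Real.rpow_le_rpow_of_exponent_ge (by positivity) (div_le_one_of_le₀ (by linarith) d0.le)
      (by linarith : 1 ≤ α)).trans ?_
    rw [Real.rpow_one, div_le_iff₀ d0, sub_mul, inv_mul_cancel₀ d0.ne']
    linarith
  have B1 : 1 + 2 * (q 3 : ℝ)⁻¹ ≤ rr α q 1 := by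
    have : 1 + (q 3 : ℝ)⁻¹ ≤ q 1 / q 3 := by
      rw [le_div_iff₀ d0, add_mul, inv_mul_cancel₀ d0.ne']; linarith
    rw [e1]
    refine le_trans ?_ (Real.rpow_le_rpow_of_exponent_le (by linarith) hα)
    rw [Real.rpow_two]
    nlinarith
  have C0 : rr α q 2 ≤ 0 := by rw [e2, neg_nonpos]; positivity
  have C1 : -1 ≤ rr α q 2 := by
    rw [e2, neg_le_neg_iff]
    exact Real.rpow_le_one (by positivity) (div_le_one_of_le₀ cd' d0.le) (by linarith)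
  rw [Fin.sum_univ_three] at hs'
  refine ⟨hs.trans (hp (Nat.le_add_right _ _)), fun i => abs_le.2 ?_, le_abs.2 (.inl (by linarith)),
    le_abs.2 (.inr (by linarith)), fun i₀ h S hS => ?_⟩
  · fin_cases i <;> constructor <;> simp <;> linarith
  rw [← Fintype.sum_ite_mem, Fin.sum_univ_three, le_abs]
  by_cases s1 : 1 ∈ S
  · by_cases s2 : 2 ∈ S
    · obtain rfl : i₀ = 0 := by fin_cases i₀ <;> simp_all
      have : ρ⁻¹ ≤ rr α q 0 := by
        have h' : (q 3 : ℝ) ≤ 2 * q 0 := by exact_mod_cast h rfl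
        rw [e0]
        refine (inv_anti₀ (by positivity) h6).trans ?_
        rw [← Real.inv_rpow (by norm_num)]
        exact Real.rpow_le_rpow (by norm_num) (by rw [le_div_iff₀ d0]; linarith) (by linarith)
      rw [if_neg hS, if_pos s1, if_pos s2]
      right
      linarith
    · rw [if_pos s1, if_neg s2]
      left
      split_ifs <;> linarith
  · rw [if_neg s1]
    right
    split_ifs <;> linarith

theorem patch {α ρ u v : ℝ} (hα : 1 ≤ α) (hρ : 12 * α ≤ ρ) (hu : |u - 1| ≤ 2 / ρ ^ 2)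
    (hv : |v - 1| ≤ 2 / ρ ^ 2) : |u * v - 1| ≤ ρ⁻¹ ∧ |(u * v) ^ α - 1| ≤ 12 * α * (ρ ^ 2)⁻¹ ∧
      ∀ τ, |(u * v) ^ α - tb α τ (u * v - 1)| ≤ 2 * (ρ ^ τ)⁻¹ ∧
        |u * v - tb α⁻¹ τ ((u * v) ^ α - 1)| ≤ 2 * (ρ ^ τ)⁻¹ := by
  have r0 : 0 < ρ := by linarith
  have r1 : ρ⁻¹ ≤ 12⁻¹ := inv_anti₀ (by norm_num) (by linarith)
  have r2 : 0 < ρ⁻¹ := by positivity
  have r3 : 12 * α * ρ⁻¹ ≤ 1 := by rw [mul_inv_le_iff₀ r0]; linarith
  rw [div_eq_mul_inv, ← inv_pow] at hu hv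
  have h1 : |u * v - 1| ≤ 6 * ρ⁻¹ ^ 2 := by
    rw [show u * v - 1 = (u - 1) * (v - 1) + (u - 1) + (v - 1) by ring]
    refine (abs_add_three _ _ _).trans ?_
    rw [abs_mul]
    nlinarith [mul_le_mul hu (hv.trans (by nlinarith : _ ≤ (1 : ℝ))) (abs_nonneg _) (by positivity)]
  generalize u * v = z at *
  have h2 : α * |z - 1| ≤ 6 * α * ρ⁻¹ ^ 2 := by nlinarith
  have h3 : α * |z - 1| ≤ ρ⁻¹ := by nlinarith
  have h4 := tail hα (abs_of_pos (by linarith : 0 < α)).le (h3.trans (by linarith))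
  simp only [add_sub_cancel] at h4
  have h5 : |z ^ α - 1| ≤ 12 * α * ρ⁻¹ ^ 2 := by
    have := h4 1
    simp only [tb, Finset.sum_range_one, Ring.choose_zero_right, pow_zero, mul_one, pow_one] at this
    linarith
  have h6 : 1 * |z ^ α - 1| ≤ ρ⁻¹ := by nlinarith
  have h7 := tail (r := α⁻¹) le_rfl (by
    rw [abs_of_pos (by positivity)]; exact inv_le_one_of_one_le₀ hα) (h6.trans (by linarith))
  have z0 : 0 ≤ z := by nlinarith [abs_le.1 h1]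
  simp only [add_sub_cancel, Real.rpow_rpow_inv z0 (by linarith : α ≠ 0)] at h7
  refine ⟨by nlinarith [abs_nonneg (z - 1)], by rwa [← inv_pow], fun τ => ?_⟩
  rw [← inv_pow]
  exact ⟨(h4 τ).trans (by gcongr), (h7 τ).trans (by gcongr)⟩

end Pool.Agent.P.MP_2c7719_nt.Rz
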