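import Pool.Agent.P.MP_2c7719_nt.Rz.Core
import Pool.Agent.P.MP_2c7719_nt.Rz.Re

/-! Paucity of near solutions in a small patch. -/

namespace Pool.Agent.P.MP_2c7719_nt.Rz

open Filter VF

/-- the sequences of size `ρ ^ o(1)` -/
def sm (U : Ultrafilter ℕ) {ρ : ℕ → ℝ} (h : Tendsto ρ U atTop) : Subring (ℕ → ℝ) where
  carrier := {f | ∀ m : ℕ, ∀ᶠ n in U, |f n| ^ m ≤ ρ n}
  mul_mem' := fun {f g} hf hg m => by
    filter_upwards [hf (2 * m), hg (2 * m), h.eventually_ge_atTop 0] with n h1 h2 h3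
    rw [pow_mul'] at h1 h2
    rw [Pi.mul_apply, abs_mul, mul_pow]
    nlinarith [sq_nonneg (|f n| ^ m - |g n| ^ m)]
  one_mem' := fun m => (h.eventually_ge_atTop 1).mono fun n hn => by simpa using hn
  add_mem' := fun {f g} hf hg m => by
    filter_upwards [hf (2 * m), hg (2 * m), h.eventually_ge_atTop ((2 ^ m) ^ 2)] with n h1 h2 h3
    have : (max |f n| |g n| ^ m) ^ 2 ≤ ρ n := by
      rw [← pow_mul']; rcases max_choice |f n| |g n| with h | h <;> rwa [h]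
    refine (pow_le_pow_left₀ (abs_nonneg _) ((abs_add_le _ _).trans (add_le_add (le_max_left _ |g n|)
      (le_max_right |f n| _))) m).trans ?_
    rw [← two_mul, mul_pow]
    nlinarith [sq_nonneg (2 ^ m - max |f n| |g n| ^ m)]
  zero_mem' := fun m => (h.eventually_ge_atTop 1).mono fun n hn => by
    simpa using (zero_pow_le_one m).trans hn
  neg_mem' := fun hf m => by simpa using hf m

set_option maxHeartbeats 1000000 in
theorem seq {T : ℕ} {i₀ : Fin 3} {α ρ : ℕ → ℝ} {q : ℕ → ℕ → Fin 4 → ℕ}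
    (hα : ∀ n : ℕ, (n : ℝ) + T + T + 2 ≤ α n) (h1 : ∀ n, 12 * α n ≤ ρ n) (h2 : ∀ n, 2 ^ α n ≤ ρ n)
    (h3 : ∀ n, α n ^ n ≤ ρ n)
    (hq : ∀ n l, Od (q n l) ∧ ρ n ≤ q n l 3 ∧ (q n l 1 : ℝ) ≤ ρ n ^ T ∧ |sg (α n) (q n l)| ≤ ρ n ^ T)
    (hp : ∀ n l l' i, |(q n l i : ℝ) / q n l' i - 1| ≤ 2 / ρ n ^ 2)
    (hi : ∀ n l, i₀ = 0 → q n l 3 ≤ 2 * q n l 0)
    (hinj : ∀ n l m, l ≤ n → m ≤ n → (q n l i₀.castSucc : ℝ) / q n l 3 =
      (q n m i₀.castSucc : ℝ) / q n m 3 → l = m) : False := by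
  classical
  let U := hyperfilter ℕ
  have hU : ∀ m : ℕ, ∀ᶠ n in U, m ≤ n := fun m => Nat.hyperfilter_le_atTop (eventually_ge_atTop m)
  have α2 : ∀ n, 2 ≤ α n := fun n => by
    linarith [hα n, Nat.cast_nonneg (α := ℝ) n, Nat.cast_nonneg (α := ℝ) T]
  have ρ2 : ∀ n, 2 ≤ ρ n := fun n => by linarith [α2 n, h1 n]
  have ρ0 : ∀ n, 0 < ρ n := fun n => by linarith [ρ2 n]
  have hρ : Tendsto ρ U atTop := (tendsto_atTop_mono (fun n => by
    linarith [hα n, h1 n, α2 n, Nat.cast_nonneg (α := ℝ) T]) tendsto_natCast_atTop_atTop).mono_left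
      Nat.hyperfilter_le_atTop
  have mono : ∀ {f g : ℕ → ℝ}, g ∈ sm U hρ → (∀ᶠ n in U, |f n| ≤ |g n|) → f ∈ sm U hρ :=
    fun hg h m => (h.and (hg m)).mono fun n h => (pow_le_pow_left₀ (abs_nonneg _) h.1 m).trans h.2
  have cst : ∀ c : ℝ, (fun _ => c) ∈ sm U hρ := fun c m => hρ.eventually_ge_atTop _
  have hαV : α ∈ sm U hρ := fun m => (hU m).mono fun n hn => by
    rw [abs_of_pos (by linarith [α2 n])]
    exact (pow_le_pow_right₀ (by linarith [α2 n]) hn).trans (h3 n)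
  obtain ⟨K, _, _, A, W, σ, hW, hDv, hπ, hae⟩ := exists_lim U (sm U hρ)
    (fun f => (U.em fun n => |f n| ≤ 1).imp (fun h => mono (one_mem _) (by simpa using h))
      fun h => mono (one_mem _) (h.mono fun n hn => by
        simpa [abs_inv] using inv_le_one_of_one_le₀ (not_le.1 hn).le))
    (fun f g e h => mono h (e.mono fun n hn => by rw [hn])) (p := ρ⁻¹)
    (mono (one_mem _) (.of_forall fun n => by
      simpa [abs_inv, abs_of_pos (ρ0 n)] using inv_le_one_of_one_le₀ (by linarith [ρ2 n])))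
    (fun n => inv_ne_zero (ρ0 n).ne') (fun h => by
      obtain ⟨n, hn⟩ := (h 2).exists
      simp only [inv_inv, sq_abs] at hn
      nlinarith [ρ2 n]) fun c => ⟨0, by rw [pow_zero, one_mul]; exact cst c⟩
  have : CharZero K := (RingHom.charZero_iff (algebraMap ℝ K).injective).1 inferInstance
  have bd : ∀ {f g : ℕ → ℝ} (m : ℤ), g ∈ sm U hρ → (∀ᶠ n in U, |f n| ≤ g n * (ρ n ^ m)⁻¹) →
      f / ρ⁻¹ ^ m ∈ sm U hρ := fun {f g} m hg h => mono hg (h.mono fun n hn => by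
    have := zpow_pos (ρ0 n) m
    simp only [Pi.div_apply, Pi.pow_apply, Pi.inv_apply, inv_zpow, div_inv_eq_mul, abs_mul,
      abs_of_pos this]
    exact ((le_mul_inv_iff₀ this).1 hn).trans (le_abs_self _))
  have inW : ∀ (f : ℕ → ℝ) (c : ℝ) (m : ℕ), (∀ᶠ n in U, |f n| ≤ c * ρ n ^ m) → f ∈ W :=
    fun f c m h => (hW f).2 ⟨m, by
      simpa [div_eq_mul_inv, mul_comm] using bd (-m) (cst c) (by simpa using h)⟩
  have dv : ∀ (f : W) (c : ℝ) (m : ℕ), (∀ᶠ n in U, |f.1 n| ≤ c * (ρ n ^ m)⁻¹) → A.Dv m (σ f) :=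
    fun f c m h => (hDv f m).2 (bd m (cst c) (by simpa using h))
  have dv' : ∀ (f : W) (m : ℕ), (∀ᶠ n in U, |f.1 n| ≤ ρ n ^ m) → A.Dv (-m) (σ f) :=
    fun f m h => (hDv f _).2 (bd (-m) (cst 1) (by simpa using h))
  have nz : ∀ (f : W) (m : ℕ), (∀ᶠ n in U, (ρ n ^ m)⁻¹ ≤ |f.1 n|) →
      σ f ≠ 0 ∧ A.Dv (-m) (σ f)⁻¹ ∧ ∀ h, (σ f)⁻¹ = σ ⟨f.1⁻¹, h⟩ := fun f m h => by
    have h' : ∀ᶠ n in U, |f.1⁻¹ n| ≤ ρ n ^ m := h.mono fun n hn => by
      simpa [abs_inv] using inv_le_of_inv_le₀ (pow_pos (ρ0 n) m) hn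
    have hf : f.1⁻¹ ∈ W := inW _ 1 m (by simpa using h')
    have e : σ f * σ ⟨_, hf⟩ = 1 := by
      rw [← map_mul, ← map_one σ]
      exact hae _ _ (h.mono fun n hn => mul_inv_cancel₀
        (abs_pos.1 ((inv_pos.2 (pow_pos (ρ0 n) m)).trans_le hn)))
    exact ⟨left_ne_zero_of_mul_eq_one e, inv_eq_of_mul_eq_one_right e ▸ dv' _ m h',
      fun _ => inv_eq_of_mul_eq_one_right e⟩
  have nz0 : ∀ f : W, (∀ᶠ n in U, 1 ≤ |f.1 n|) → σ f ≠ 0 ∧ (σ f)⁻¹ ∈ A.O := fun f h =>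
    ⟨(nz f 0 (by simpa using h)).1, dv_zero_iff.1 (nz f 0 (by simpa using h)).2.1⟩
  have q1 : ∀ n l i, (1 : ℝ) ≤ q n l i ∧ (q n l i : ℝ) ≤ ρ n ^ T := fun n l i => by
    obtain ⟨⟨a, b, c, d⟩, -, e, -⟩ := hq n l
    have : 1 ≤ q n l i ∧ q n l i ≤ q n l 1 := by fin_cases i <;> simp <;> omega
    exact ⟨by exact_mod_cast this.1, le_trans (by exact_mod_cast this.2) e⟩
  have q0 : ∀ n l i, (0 : ℝ) < q n l i := fun n l i => one_pos.trans_le (q1 n l i).1
  let X : Fin 3 → ℕ → ℕ → ℝ := fun i l n =>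
    (q n l i.castSucc : ℝ) / q n 0 i.castSucc * ((q n 0 3 : ℝ) / q n l 3)
  have hX := fun i l n => patch (by linarith [α2 n]) (h1 n) (hp n l 0 (Fin.castSucc i)) (hp n 0 l 3)
  have ρi : ∀ n, (ρ n)⁻¹ ≤ 1 := fun n => inv_le_one_of_one_le₀ (by linarith [ρ2 n])
  let x : Fin 3 → ℕ → W := fun i l => ⟨X i l, inW _ 2 0 (.of_forall fun n => by
    have := abs_le.1 ((hX i l n).1.trans (ρi n))
    exact abs_le.2 ⟨by simp only [X]; linarith, by simp only [X]; linarith⟩)⟩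
  let y : Fin 3 → ℕ → W := fun i l => ⟨fun n => X i l n ^ α n, inW _ 2 0 (.of_forall fun n => by
    simpa [tb] using ((hX i l n).2.2 0).1)⟩
  have hf := fun (m n l : ℕ) (h : m ≤ n) => facts (m := m) (hq n l).1 (ρ2 n) (hq n l).2.1
    (hq n l).2.2.1 (hq n l).2.2.2 (le_trans (by gcongr) (hα n)) (h2 n)
  have hf0 := fun n l => hf 0 n l n.zero_le
  let r : Fin 3 → ℕ → W := fun i l => ⟨fun n => rr (α n) (q n l) i, inW _ 3 0
    (.of_forall fun n => by simpa using (hf0 n l).2.1 i)⟩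
  have hr : ∀ i l, σ (r i 0) * σ (y i l) = σ (r i l) := fun i l => by
    rw [← map_mul]
    refine congrArg σ (Subtype.ext (funext fun n => ?_))
    have := q0 n
    simp only [r, y, X, rr, MulMemClass.coe_mul, Pi.mul_apply, mul_assoc]
    rw [← Real.mul_rpow (by positivity) (by positivity)]
    congr 2
    field_simp [(this _ _).ne']
  have hrel : ∀ l, ∑ i, σ (r i l) = 1 := fun l => by
    rw [← sub_eq_zero, ← map_sum, ← map_one σ, ← map_sub]
    exact eq_zero (A := A) 0 fun m => by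
      simpa using dv (∑ i, r i l - 1) 1 m ((hU m).mono fun n hn => by simpa [r] using (hf m n l hn).1)
  let a : W := ⟨α, (hW _).2 ⟨0, by simpa using hαV⟩⟩
  have ha := nz a 0 (.of_forall fun n => by
    simpa [a] using le_abs.2 (.inl (by linarith [α2 n])))
  let ai : W := ⟨α⁻¹, inW _ 1 0 (.of_forall fun n => by
    simpa [abs_inv] using inv_le_one_of_one_le₀ (le_abs.2 (.inl (by linarith [α2 n]))))⟩
  have htb : ∀ (b u w : W) (τ : ℕ), (∀ n, |w.1 n - tb (b.1 n) τ (u.1 n - 1)| ≤ 2 * (ρ n ^ τ)⁻¹) →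
      A.Dv τ (σ w - tb (σ b) τ (σ u - 1)) := fun b u w τ h => by
    have := dv (w - ∑ j ∈ Finset.range τ, Ring.choose b j * (u - 1) ^ j) 2 τ (.of_forall fun n => by
      have e := fun j => Ring.map_choose ((Pi.evalAlgHom ℝ (fun _ => ℝ) n).comp W.val) b j
      simp only [AlgHom.comp_apply, Pi.evalAlgHom_apply, Subalgebra.coe_val] at e
      simpa [tb, e] using h n)
    simpa [tb, Ring.map_choose] using this
  let Zs : Subring W := ((Int.castRingHom ℝ).compLeft ℕ).range.comap W.val.toRingHom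
  have hZs : ∀ f ∈ Zs, ∀ n, f.1 n ≠ 0 → 1 ≤ |f.1 n| := by
    rintro f ⟨z, hz⟩ n hn
    have e : (z n : ℝ) = f.1 n := congrFun hz n
    rw [← e] at hn ⊢
    exact_mod_cast Int.one_le_abs (Int.cast_ne_zero.1 hn)
  have hQb : ∀ l n, |q n l 3 * ∏ i : Fin 3, (q n 0 i.castSucc : ℝ)| ≤ ρ n ^ (4 * T) := fun l n => by
    have := q1 n
    have := ρ0 n
    rw [abs_of_nonneg (by positivity), Fin.prod_univ_three,
      show 4 * T = T + (T + T + T) by ring, pow_add, pow_add, pow_add]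
    gcongr <;> exact (q1 n _ _).2
  let Q : ℕ → W := fun l => ⟨fun n => q n l 3 * ∏ i : Fin 3, (q n 0 i.castSucc : ℝ), inW _ 1 (4 * T)
    (.of_forall fun n => by simpa only [one_mul] using hQb l n)⟩
  have hQ0 : ∀ l n, (Q l).1 n ≠ 0 := fun l n =>
    mul_ne_zero (q0 n _ _).ne' (Finset.prod_ne_zero_iff.2 fun i _ => (q0 n _ _).ne')
  have hQZ : ∀ l, Q l ∈ Zs := fun l => ⟨fun n => q n l 3 * ∏ i : Fin 3, (q n 0 i.castSucc : ℤ),
    funext fun n => by simp [Q]⟩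
  have hQx : ∀ i l, Q l * x i l ∈ Zs := fun i l => ⟨fun n => q n l i.castSucc * q n 0 3 *
    ∏ j ∈ Finset.univ.erase i, (q n 0 j.castSucc : ℤ), funext fun n => by
      have := q0 n
      simp [Q, x, X, ← Finset.mul_prod_erase _ _ (Finset.mem_univ i)]
      field_simp [(this _ _).ne']⟩
  refine Cfg.core (A := A) (T := 4 * T) (κ := σ a) (α := fun i => σ (r i 0))
    (x := fun i l => σ (x i l)) (y := fun i l => σ (y i l)) (i₀ := i₀)
    ⟨fun n => ?_, ⟨Zs.map σ.toRingHom, fun l => σ (Q l), ?_,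
      fun l => (nz0 _ (.of_forall fun n => hZs _ (hQZ l) n (hQ0 l n))).1, fun l => ⟨_, hQZ l, rfl⟩,
      fun l => dv' _ _ (.of_forall (hQb l)), fun i l => ⟨_, hQx i l, map_mul _ _ _⟩⟩,
      dv_zero_iff.1 ((hDv a 0).2 (by simpa using hαV)), dv_zero_iff.1 ha.2.1, fun c => ?_,
      fun i => dv_zero_iff.1 (dv _ 3 0 (.of_forall fun n => by simpa using (hf0 n 0).2.1 i)),
      (nz0 _ (.of_forall fun n => (hf0 n 0).2.2.1)).1, (nz0 _ (.of_forall fun n => (hf0 n 0).2.2.1)).2,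
      (nz _ _ (.of_forall fun n => (hf0 n 0).2.2.2.1)).1, hrel 0,
      fun l => by simp only [hr, hrel], fun i l => ?_, fun i l => ?_,
      fun τ i l => ha.2.2 ai.2 ▸ htb ai _ _ τ fun n => ((hX i l n).2.2 τ).2,
      fun τ i l => htb a _ _ τ fun n => ((hX i l n).2.2 τ).1⟩ (fun l m h => ?_) fun l S hS => ?_
  · rcases n with _ | n
    · simp
    · simpa using (nz0 (n + 1) (.of_forall fun _ => by
        simpa using le_abs.2 (.inl (by simp : (1 : ℝ) ≤ n + 1)))).2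
  · rintro _ ⟨f, hf, rfl⟩
    rcases U.em fun n => f.1 n = 0 with h | h
    · rw [show σ.toRingHom f = 0 from (hae f 0 h).trans (map_zero σ), inv_zero]
      exact zero_mem _
    · exact (nz0 f (h.mono (hZs f hf))).2
  · obtain ⟨m, hm⟩ := exists_nat_ge (c : ℝ)
    have := (nz0 (a - algebraMap ℝ W c) ((hU m).mono fun n hn => by
      have : (m : ℝ) ≤ n := by exact_mod_cast hn
      simpa [a] using le_abs.2 (.inl (by linarith [hα n, Nat.cast_nonneg (α := ℝ) T])))).1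
    simpa [sub_eq_zero] using this
  · simpa using dv (x i l - 1) 1 1 (.of_forall fun n => by simpa using (hX i l n).1)
  · simpa using (hDv (y i l - 1) 2).2 (bd 2 (mul_mem (cst 12) hαV) (.of_forall fun n => by
      simpa using (hX i l n).2.1))
  · by_contra hne
    have := nz0 _ ((hU (l + m)).mono fun n hn => hZs _
      (sub_mem (mul_mem (hQZ m) (hQx i₀ l)) (mul_mem (hQZ l) (hQx i₀ m))) n fun h0 =>
        hne (hinj n l m (by omega) (by omega) ?_))
    · exact this.1 (by simp only [map_sub, map_mul, show σ (x i₀ l) = σ (x i₀ m) from h]; ring)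
    have h0' : (Q l).1 n * (Q m).1 n * (X i₀ l n - X i₀ m n) = 0 := by
      change (Q m).1 n * ((Q l).1 n * X i₀ l n) - (Q l).1 n * ((Q m).1 n * X i₀ m n) = 0 at h0
      linear_combination h0
    have h4 := sub_eq_zero.1 ((mul_eq_zero.1 h0').resolve_left (mul_ne_zero (hQ0 l n) (hQ0 m n)))
    refine mul_left_cancel₀ (div_pos (q0 n 0 3) (q0 n 0 i₀.castSucc)).ne' ?_
    simp only [X] at h4
    linear_combination h4
  · simp only [hr]
    have := (nz (∑ i ∈ S, r i l - 1) _ (.of_forall fun n => by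
      simpa [r] using (hf0 n l).2.2.2.2 i₀ (hi n l) S hS)).1
    simpa [sub_eq_zero] using this

theorem pD : S_D := by
  classical
  intro T
  have key : ∀ i₀ : Fin 3, ∀ᶠ α : ℝ in atTop, ∃ B : ℕ, ∀ᶠ ρ : ℝ in atTop,
      ∀ S : Finset (Fin 4 → ℕ),
        (∀ q ∈ S, Od q ∧ ρ ≤ q 3 ∧ (q 1 : ℝ) ≤ ρ ^ T ∧ |sg α q| ≤ ρ ^ T) →
        (∀ q ∈ S, ∀ q' ∈ S, ∀ i, |(q i : ℝ) / q' i - 1| ≤ 2 / ρ ^ 2) →
        (i₀ = 0 → ∀ q ∈ S, q 3 ≤ 2 * q 0) →
          (S.image fun q => (q i₀.castSucc : ℚ) / q 3).card ≤ B := fun i₀ => by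
    by_contra hc
    rw [not_eventually, frequently_atTop] at hc
    choose α hα hc using fun n : ℕ => hc (n + T + T + 2)
    simp only [not_exists, not_eventually, frequently_atTop] at hc
    choose ρ hρ hc using fun n : ℕ => hc n n (max (12 * α n) (max (2 ^ α n) (α n ^ n)))
    push Not at hc
    choose S h1 h2 h3 h4 using hc
    have : ∀ n l, ∃ q ∈ S n, (q i₀.castSucc : ℚ) / q 3 =
        ((S n).image fun q => (q i₀.castSucc : ℚ) / q 3).equivFin.symm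
          ⟨min l n, (min_le_right _ _).trans_lt (h4 n)⟩ := fun n l =>
      Finset.mem_image.1 (Finset.coe_mem _)
    choose q hq e using this
    refine seq hα (fun n => (le_max_left _ _).trans (hρ n))
      (fun n => ((le_max_left _ _).trans (le_max_right _ _)).trans (hρ n))
      (fun n => ((le_max_right _ _).trans (le_max_right _ _)).trans (hρ n))
      (fun n l => h1 n _ (hq n l)) (fun n l l' => h2 n _ (hq n l) _ (hq n l'))
      (fun n l h => h3 n h _ (hq n l)) fun n l m hl hm h => ?_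
    have : (q n l i₀.castSucc : ℚ) / q n l 3 = (q n m i₀.castSucc : ℚ) / q n m 3 := by
      apply Rat.cast_injective (α := ℝ)
      simpa using h
    rw [e, e] at this
    simpa [hl, hm] using this
  obtain ⟨α₀, h⟩ := eventually_atTop.1 (eventually_all.2 key)
  refine ⟨α₀, fun α hα => ?_⟩
  choose B hB using h α hα
  obtain ⟨ρ₀, h⟩ := eventually_atTop.1 (eventually_all.2 hB)
  refine ⟨∑ i, B i, ρ₀, fun ρ hρ S h1 h2 i hi h3 => ?_⟩
  obtain ⟨i, rfl⟩ := Fin.exists_castSucc_eq.2 hi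
  exact (h ρ hρ i S h1 h2 fun e => h3 (e ▸ rfl)).trans
    (Finset.single_le_sum (fun _ _ => Nat.zero_le _) (Finset.mem_univ i))

end Pool.Agent.P.MP_2c7719_nt.Rz
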