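import Pool.Agent.P.MP_2c7719_nt.Rz.Lim

/-! The determinant step over a valuation ring. -/

namespace Pool.Agent.P.MP_2c7719_nt.Rz

open VF

variable {K : Type} [Field K] {A : VF K}

theorem det_small {ι : Type} [Fintype ι] [DecidableEq ι] {Lo Hi : ι → ι → K} {τ r : ℕ}
    (hH : ∀ i j, A.Dv τ (Hi i j)) (hL : ∀ i j, Lo i j ∈ A.O)
    (hr : ∀ s : Finset ι, LinearIndependent K (fun i : s => Lo i) → s.card ≤ r) :
    A.Dv (τ * (Fintype.card ι - r)) (Matrix.of (Lo + Hi)).det := by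
  change A.Dv _ (Matrix.detRowAlternating (Lo + Hi))
  rw [AlternatingMap.map_add_univ]
  refine Dv.sum fun s _ => ?_
  by_cases h : LinearIndependent K (s.piecewise Lo Hi)
  · have h1 := hr s (by
      convert h.comp (fun i : s => (i : ι)) Subtype.val_injective using 1
      ext1 i
      simp [i.2])
    change A.Dv _ (Matrix.of (s.piecewise Lo Hi)).det
    rw [Matrix.det_apply']
    refine Dv.sum fun e _ => Dv.omul (intCast_mem _ _) ?_
    refine (Dv.prod (k := fun i => if e i ∈ s then 0 else (τ : ℤ)) fun i _ => ?_).mono ?_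
    · by_cases hi : e i ∈ s
      · simpa [hi, dv_zero_iff] using hL _ _
      · simpa [hi] using hH _ _
    · rw [Equiv.sum_comp e fun i => if i ∈ s then 0 else (τ : ℤ), Finset.sum_ite,
        Finset.sum_const_zero, zero_add, Finset.sum_const, nsmul_eq_mul, mul_comm]
      have := Finset.card_add_card_compl s
      rw [show Finset.univ.filter (fun i => i ∉ s) = sᶜ by ext; simp]
      exact mul_le_mul_of_nonneg_right (by omega) (by positivity)
  · rw [AlternatingMap.map_linearDependent _ _ h]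
    exact dv0 _

theorem exists_pts {ι : Type} [Fintype ι] [DecidableEq ι] {f : ι → ℕ → K}
    (hf : LinearIndependent K f) : ∃ p : ι → ℕ, (Matrix.of fun i j => f i (p j)).det ≠ 0 := by
  obtain ⟨κ, a, -, h1, h2⟩ := exists_linearIndependent' K (flip f)
  rw [span_flip_eq_top_iff_linearIndependent.2 hf] at h1
  let e := (Module.Basis.mk h2 h1.ge).indexEquiv (Pi.basisFun K ι)
  refine ⟨a ∘ e.symm, ((Matrix.isUnit_iff_isUnit_det _).1
    (Matrix.linearIndependent_cols_iff_isUnit.1 ?_)).ne_zero⟩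
  exact h2.comp _ e.symm.injective

theorem card_le_two {Z : Subring K} (hZ : ∀ z ∈ Z, z⁻¹ ∈ A.O) {Q : ℕ → K} {T n τ : ℕ}
    (hQ0 : ∀ l, Q l ≠ 0) (hQ : ∀ l, A.Dv (-T) (Q l)) (hτ : 2 * T * n + 1 ≤ τ)
    {κ : Type} [Fintype κ] (e : κ → ℕ → K) {ι : Type} [Fintype ι] {f : ι → ℕ → K}
    (hf : LinearIndependent K f) (h1 : ∀ i l, Q l ^ n * f i l ∈ Z) (h2 : ∀ i l, f i l ∈ A.O)
    (h3 : ∀ i, ∃ g ∈ Submodule.span K (Set.range e), ∀ l, A.Dv τ (f i l - g l)) :
    Fintype.card ι ≤ 2 * Fintype.card κ := by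
  classical
  obtain ⟨p, hp⟩ := exists_pts hf
  choose g hg h3 using h3
  have h4 := det_small (A := A) (Lo := fun i j => g i (p j)) (Hi := fun i j => f i (p j) - g i (p j))
    (r := Fintype.card κ) (fun i j => h3 i _)
    (fun i j => by simpa using sub_mem (h2 i (p j)) ((h3 i (p j)).mem (by positivity)))
    (fun s hs => by
      have := linearIndependent_le_span_aux' (fun i : s => g i)
        (LinearIndependent.of_comp (LinearMap.funLeft K K p) hs) (Set.range e)
        (by rintro _ ⟨i, rfl⟩; exact hg i)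
      rw [Fintype.card_coe] at this
      exact this.trans (Fintype.card_range_le e))
  rw [show (fun i j => g i (p j)) + (fun i j => f i (p j) - g i (p j)) = fun i j => f i (p j) by
    ext; simp] at h4
  have h5 : (∏ j, Q (p j) ^ n) * (Matrix.of fun i j => f i (p j)).det ∈ Z := by
    rw [← Matrix.det_mul_row, Matrix.det_apply']
    exact sum_mem fun e _ => mul_mem (intCast_mem _ _) (prod_mem fun j _ => h1 _ _)
  have h6 := ((Dv.prod (s := Finset.univ) fun j _ => (hQ (p j)).pow n).mul h4).mulo (hZ _ h5)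
  rw [mul_inv_cancel₀ (mul_ne_zero (Finset.prod_ne_zero_iff.2 fun j _ => pow_ne_zero _ (hQ0 _)) hp),
    Finset.sum_const, nsmul_eq_mul, Finset.card_univ] at h6
  by_contra hc
  refine not_dv_one (h6.mono ?_)
  generalize Fintype.card ι = r at *
  generalize Fintype.card κ = s at *
  have a1 : (2 * T * n + 1 : ℤ) ≤ τ := by exact_mod_cast hτ
  have a2 : (2 * s + 1 : ℤ) ≤ r := by exact_mod_cast not_le.1 hc
  have a3 : (0 : ℤ) ≤ T * n := by positivity
  have a4 : (0 : ℤ) ≤ s := by positivity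
  nlinarith [mul_le_mul a1 (by linarith : (r + 1 : ℤ) ≤ 2 * (r - s)) (by linarith) (by linarith)]

variable (A) in
/-- the sequences with values in `π ^ τ O` -/
def Ps (τ : ℕ) : Submodule A.O (ℕ → K) where
  carrier := {f | ∀ l, A.Dv τ (f l)}
  add_mem' := fun h h' l => (h l).add (h' l)
  zero_mem' := fun _ => dv0 _
  smul_mem' := fun c _ h l => Dv.omul c.2 (h l)

/-- the monomials with a small exponent -/
def mo (t w : ℕ → K) (M τ : ℕ) : Fin M × Fin τ ⊕ Fin τ × Fin M → ℕ → K :=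
  Sum.elim (fun p => t ^ (p.1 : ℕ) * w ^ (p.2 : ℕ)) fun p => t ^ (p.1 : ℕ) * w ^ (p.2 : ℕ)

theorem reduce {t w : ℕ → K} (ht : ∀ l, A.Dv 1 (t l)) (hw : ∀ l, A.Dv 1 (w l)) {M τ : ℕ}
    (h : τ ≤ M ∨ ∃ (s : Finset (Fin 2 →₀ ℕ)) (g : (Fin 2 →₀ ℕ) → A.O), (∃ m ∈ s, IsUnit (g m)) ∧
      (∀ m, IsUnit (g m) → m 0 < M ∧ m 1 < M) ∧ ∑ m ∈ s, g m • (t ^ m 0 * w ^ m 1) ∈ Ps A τ)
    (i j : ℕ) :
    t ^ i * w ^ j ∈ (Submodule.span K (Set.range (mo t w M τ))).restrictScalars A.O ⊔ Ps A τ := by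
  classical
  set N := (Submodule.span K (Set.range (mo t w M τ))).restrictScalars A.O ⊔ Ps A τ
  have hv : ∀ i j l, A.Dv (i + j : ℕ) ((t ^ i * w ^ j) l) := fun i j l => by
    simpa using ((ht l).pow i).mul ((hw l).pow j)
  have hP : ∀ i j, τ ≤ i ∨ τ ≤ j → t ^ i * w ^ j ∈ Ps A τ := fun i j h l =>
    (hv i j l).mono (by omega)
  have hE : ∀ i j, τ ≤ i ∨ τ ≤ j ∨ i < M ∨ j < M → t ^ i * w ^ j ∈ N := fun i j h => by
    by_cases h1 : τ ≤ i ∨ τ ≤ j
    · exact Submodule.mem_sup_right (hP i j h1)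
    refine Submodule.mem_sup_left (Submodule.subset_span ?_)
    by_cases h2 : i < M
    · exact ⟨.inl (⟨i, h2⟩, ⟨j, by omega⟩), rfl⟩
    · exact ⟨.inr (⟨i, by omega⟩, ⟨j, by omega⟩), rfl⟩
  rcases h with h | ⟨s, g, ⟨m₁, hm₁, hu₁⟩, hM, hG⟩
  · exact hE i j (by omega)
  obtain ⟨m₀, hm₀, hmin⟩ := (s.filter fun m => IsUnit (g m)).exists_min_image
    (fun m => toLex (m 1, m 0)) ⟨m₁, Finset.mem_filter.2 ⟨hm₁, hu₁⟩⟩
  obtain ⟨hm₀, hu⟩ := Finset.mem_filter.1 hm₀
  let N' : Submodule A.O (ℕ → K) :=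
    Submodule.span _ (Set.range fun p : Fin τ × Fin τ => t ^ (p.1 : ℕ) * w ^ (p.2 : ℕ))
  have hN' : ∀ i j, t ^ i * w ^ j ∈ Ps A τ ∨ t ^ i * w ^ j ∈ N' := fun i j => by
    by_cases h1 : τ ≤ i ∨ τ ≤ j
    · exact .inl (hP i j h1)
    · exact .inr (Submodule.subset_span ⟨(⟨i, by omega⟩, ⟨j, by omega⟩), rfl⟩)
  have key : ∀ k i j, τ * τ ≤ i + τ * j + k →
      t ^ i * w ^ j ∈ N ⊔ IsLocalRing.maximalIdeal A.O • N' := fun k => by
    induction k with
    | zero =>
      refine fun i j h => Submodule.mem_sup_left (hE i j ?_)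
      by_contra hc
      nlinarith [Nat.mul_le_mul_left τ (show j + 1 ≤ τ by omega), show i < τ by omega]
    | succ k ih =>
      intro i j h
      by_cases hc : τ ≤ i ∨ i < m₀ 0 ∨ j < m₀ 1
      · exact Submodule.mem_sup_left (hE i j (by have := hM _ hu; omega))
      obtain ⟨a, rfl⟩ := Nat.exists_eq_add_of_le (show m₀ 0 ≤ i by omega)
      obtain ⟨b, rfl⟩ := Nat.exists_eq_add_of_le (show m₀ 1 ≤ j by omega)
      have h1 : ∑ m ∈ s, g m • (t ^ (m 0 + a) * w ^ (m 1 + b)) ∈ Ps A τ := fun l => by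
        convert Dv.omul ((hv a b l).mem (by positivity)) (hG l) using 1
        simp only [Finset.sum_apply, Finset.mul_sum, Pi.mul_apply, Pi.pow_apply,
          Algebra.smul_def]
        exact Finset.sum_congr rfl fun m _ => by ring
      rw [← Finset.add_sum_erase _ _ hm₀] at h1
      rw [← Submodule.smul_mem_iff_of_isUnit _ hu, ← add_mem_cancel_right (Submodule.sum_mem _ ?_)]
      · exact Submodule.mem_sup_left (Submodule.mem_sup_right h1)
      intro m hm
      obtain ⟨hne, hm⟩ := Finset.mem_erase.1 hm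
      by_cases hum : IsUnit (g m)
      · refine Submodule.smul_mem _ _ (ih _ _ ?_)
        rcases Prod.Lex.toLex_le_toLex.1 (hmin m (Finset.mem_filter.2 ⟨hm, hum⟩)) with h2 | ⟨h2, h3⟩
        · nlinarith [Nat.mul_le_mul_left τ (show m₀ 1 + b + 1 ≤ m 1 + b by omega),
            show m₀ 0 + a < τ by omega]
        · have : m₀ 0 ≠ m 0 := fun h4 => hne (by ext i; fin_cases i; exacts [h4.symm, h2.symm])
          dsimp only at h2 h3
          rw [← h2]
          omega
      · rcases hN' (m 0 + a) (m 1 + b) with h2 | h2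
        · exact Submodule.mem_sup_left (Submodule.mem_sup_right (Submodule.smul_mem _ _ h2))
        · exact Submodule.mem_sup_right (Submodule.smul_mem_smul hum h2)
  rcases hN' i j with h2 | h2
  · exact Submodule.mem_sup_right h2
  refine Submodule.le_of_le_smul_of_le_jacobson_bot (Submodule.fg_span (Set.finite_range _))
    (IsLocalRing.maximalIdeal_le_jacobson _) (Submodule.span_le.2 ?_) h2
  rintro _ ⟨p, rfl⟩
  exact key (τ * τ) _ _ (by omega)

theorem card_le_of_span {V : Type} [AddCommGroup V] [Module K V] {S : Set V} {r : ℕ}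
    (h : ∀ (ι : Type) [Fintype ι] (f : ι → V), (∀ i, f i ∈ S) → LinearIndependent K f →
      Fintype.card ι ≤ r) {ι : Type} [Fintype ι] {f : ι → V}
    (hf : ∀ i, f i ∈ Submodule.span K S) (hi : LinearIndependent K f) : Fintype.card ι ≤ r := by
  obtain ⟨b, h1, h2, h3⟩ := exists_linearIndependent K S
  have hb : b.Finite := by
    by_contra hb
    have := h (Fin (r + 1)) _ (fun i => h1 (Set.Infinite.natEmbedding b hb i).2)
      (h3.comp _ ((Set.Infinite.natEmbedding b hb).injective.comp Fin.val_injective))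
    simp at this
  have := hb.fintype
  exact (linearIndependent_le_span_aux' f hi b (by rintro _ ⟨i, rfl⟩; exact h2 ▸ hf i)).trans
    (h b _ (fun i => h1 i.2) h3)

end Pool.Agent.P.MP_2c7719_nt.Rz
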