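import Mathlib

/-! Valued fields in which every element is bounded by a power of a fixed scale. -/

namespace Pool.Agent.P.MP_2c7719_nt.Rz

open Filter

/-- a valuation ring with a scale `π` -/
structure VF (K : Type) [Field K] where
  O : ValuationSubring K
  π : K
  mem : π ∈ O
  ne : π ≠ 0
  inv : π⁻¹ ∉ O
  arch : ∀ w : K, ∃ m : ℕ, π ^ m * w ∈ O

namespace VF

variable {K : Type} [Field K] (A : VF K)

/-- `w` lies in `π ^ m O` -/
def Dv (m : ℤ) (w : K) : Prop := w / A.π ^ m ∈ A.O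

variable {A} {m n : ℤ} {a b : K}

theorem dv_zero_iff : A.Dv 0 a ↔ a ∈ A.O := by simp [Dv]

theorem dv0 (m : ℤ) : A.Dv m 0 := by simp [Dv]

theorem Dv.add (h : A.Dv m a) (h' : A.Dv m b) : A.Dv m (a + b) := by
  rw [Dv, add_div]; exact add_mem h h'

theorem Dv.neg (h : A.Dv m a) : A.Dv m (-a) := by rw [Dv, neg_div]; exact neg_mem h

theorem Dv.sub (h : A.Dv m a) (h' : A.Dv m b) : A.Dv m (a - b) := by
  rw [Dv, sub_div]; exact sub_mem h h'

theorem Dv.mul (h : A.Dv m a) (h' : A.Dv n b) : A.Dv (m + n) (a * b) := by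
  rw [Dv, zpow_add₀ A.ne, mul_div_mul_comm]; exact mul_mem h h'

theorem dv_pi (m : ℤ) : A.Dv m (A.π ^ m) := by
  rw [Dv, div_self (zpow_ne_zero _ A.ne)]; exact one_mem _

theorem Dv.mono (h : A.Dv m a) (hn : n ≤ m) : A.Dv n a := by
  obtain ⟨k, rfl⟩ := Int.le.dest hn
  have : a / A.π ^ n = a / A.π ^ (n + k) * A.π ^ k := by
    have := A.ne
    rw [zpow_add₀ A.ne, zpow_natCast]; field_simp
  rw [Dv, this]
  exact mul_mem h (pow_mem A.mem k)

theorem Dv.omul (h : a ∈ A.O) (h' : A.Dv n b) : A.Dv n (a * b) := by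
  simpa using (dv_zero_iff.2 h).mul h'

theorem Dv.mulo (h : A.Dv n a) (h' : b ∈ A.O) : A.Dv n (a * b) := mul_comm b a ▸ Dv.omul h' h

theorem Dv.mem (h : A.Dv m a) (hm : 0 ≤ m) : a ∈ A.O := dv_zero_iff.1 (h.mono hm)

theorem Dv.pow (h : A.Dv m a) (k : ℕ) : A.Dv (k * m) (a ^ k) := by
  induction k with
  | zero => simpa using dv_pi (A := A) 0
  | succ k ih => rw [pow_succ, Nat.cast_succ, add_mul, one_mul]; exact ih.mul h

theorem Dv.sum {ι : Type} {s : Finset ι} {f : ι → K} (h : ∀ i ∈ s, A.Dv m (f i)) :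
    A.Dv m (∑ i ∈ s, f i) := Finset.sum_induction f _ (fun _ _ => Dv.add) (dv0 m) h

theorem Dv.prod {ι : Type} {s : Finset ι} {f : ι → K} {k : ι → ℤ} (h : ∀ i ∈ s, A.Dv (k i) (f i)) :
    A.Dv (∑ i ∈ s, k i) (∏ i ∈ s, f i) := by
  classical
  induction s using Finset.induction_on with
  | empty => simpa using dv_pi (A := A) 0
  | insert i s hi ih =>
    rw [Finset.sum_insert hi, Finset.prod_insert hi]
    exact (h i (by simp)).mul (ih fun j hj => h j (by simp [hj]))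

theorem not_dv_one : ¬ A.Dv 1 1 := by simpa [Dv] using A.inv

variable (A) in
theorem exists_dv (a : K) : ∃ m : ℕ, A.Dv (-m) a := by
  simpa [Dv, mul_comm] using A.arch a

theorem eq_zero (c : ℤ) (h : ∀ m : ℕ, A.Dv (m + c) a) : a = 0 := by
  by_contra h0
  obtain ⟨k, hk⟩ := A.exists_dv a⁻¹
  have := (h (k + c.natAbs + 1)).mul hk
  rw [mul_inv_cancel₀ h0] at this
  exact not_dv_one (this.mono (by push_cast; have := neg_abs_le c; omega))

theorem exists_dv_fam {ι : Type} [Finite ι] (f : ι → K) : ∃ m : ℕ, ∀ i, A.Dv (-m) (f i) := by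
  choose k hk using fun i => A.exists_dv (f i)
  obtain ⟨m, hm⟩ := (Set.finite_range k).bddAbove
  exact ⟨m, fun i => (hk i).mono (by have := hm ⟨i, rfl⟩; omega)⟩

end VF

theorem exists_lim {F : Type} [Field F] (U : Ultrafilter ℕ) (V : Subring (ℕ → F))
    (hinv : ∀ f, f ∈ V ∨ f⁻¹ ∈ V) (hg : ∀ f g, f =ᶠ[U] g → f ∈ V → g ∈ V) {p : ℕ → F}
    (hp : p ∈ V) (h0 : ∀ n, p n ≠ 0) (h1 : p⁻¹ ∉ V)
    (hc : ∀ c : F, ∃ m : ℕ, p ^ m * algebraMap F (ℕ → F) c ∈ V) :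
    ∃ (L : Type) (_ : Field L) (_ : Algebra F L) (A : VF L) (W : Subalgebra F (ℕ → F))
      (σ : W →ₐ[F] L), (∀ f, f ∈ W ↔ ∃ m : ℕ, p ^ m * f ∈ V) ∧
      (∀ (f : W) (m : ℤ), A.Dv m (σ f) ↔ (f : ℕ → F) / p ^ m ∈ V) ∧
      (∀ h, σ ⟨p, h⟩ = A.π) ∧ ∀ f g : W, (f : ℕ → F) =ᶠ[U] g → σ f = σ g := by
  let W : Subalgebra F (ℕ → F) :=
    { carrier := {f | ∃ m : ℕ, p ^ m * f ∈ V}
      mul_mem' := by
        rintro f g ⟨m, h⟩ ⟨n, h'⟩
        exact ⟨m + n, by rw [pow_add, mul_mul_mul_comm]; exact mul_mem h h'⟩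
      add_mem' := by
        rintro f g ⟨m, h⟩ ⟨n, h'⟩
        refine ⟨m + n, ?_⟩
        convert add_mem (mul_mem (pow_mem hp n) h) (mul_mem (pow_mem hp m) h') using 1
        ring
      algebraMap_mem' := hc }
  have hVW : ∀ f ∈ V, f ∈ W := fun f h => ⟨0, by simpa using h⟩
  have pp : ∀ m : ℕ, p ^ m * p⁻¹ ^ m = 1 := fun m => by ext n; simp [h0 n]
  have hpi : p⁻¹ ∈ W := ⟨1, by rw [← pow_one p⁻¹, pp 1]; exact one_mem V⟩
  let N : Ideal W :=
    { carrier := {f | ∀ m : ℕ, p⁻¹ ^ m * (f : ℕ → F) ∈ V}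
      add_mem' := fun h h' m => by simpa [mul_add] using add_mem (h m) (h' m)
      zero_mem' := fun m => by simp
      smul_mem' := by
        rintro ⟨f, k, hk⟩ g h m
        convert mul_mem hk (h (m + k)) using 1
        simp only [smul_eq_mul, MulMemClass.coe_mul, pow_add]
        linear_combination (-(p⁻¹ ^ m * f * g)) * pp k }
  have hN0 : ∀ f : W, (f : ℕ → F) =ᶠ[U] 0 → f ∈ N := fun f h m =>
    hg 0 _ (h.mono fun n hn => by simp [hn]) (zero_mem _)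
  have hNi : ∀ f : W, f ∉ N → ∃ h : (f : ℕ → F)⁻¹ ∈ W, f * ⟨_, h⟩ - 1 ∈ N := fun f h => by
    obtain ⟨m, hm⟩ := not_forall.1 h
    refine ⟨⟨m, by simpa [mul_comm] using (hinv _).resolve_left hm⟩, hN0 _ ?_⟩
    have := mt (hN0 f) h
    rw [EventuallyEq, ← Ultrafilter.eventually_not] at this
    exact this.mono fun n hn => by simp [mul_inv_cancel₀ (show (f : ℕ → F) n ≠ 0 from hn)]
  have hmax : N.IsMaximal := Ideal.isMaximal_iff.2 ⟨fun h => h1 (by simpa using h 1),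
    fun J f hJ hf hfJ => by
      obtain ⟨h, e⟩ := hNi f hf
      simpa using sub_mem (J.mul_mem_right ⟨_, h⟩ hfJ) (hJ e)⟩
  let : Field (W ⧸ N) := Ideal.Quotient.field N
  let σ : W →ₐ[F] W ⧸ N := Ideal.Quotient.mkₐ F N
  have hσ : ∀ f g : W, σ f = σ g ↔ f - g ∈ N := fun f g => Ideal.Quotient.eq
  have hσi : ∀ (f : W) (h : (f : ℕ → F)⁻¹ ∈ W), σ f ≠ 0 → (σ f)⁻¹ = σ ⟨_, h⟩ := fun f h hf => by
    obtain ⟨_, e⟩ := hNi f (mt Ideal.Quotient.eq_zero_iff_mem.2 hf)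
    rw [← hσ, map_mul, map_one] at e
    exact inv_eq_of_mul_eq_one_right e
  let O : ValuationSubring (W ⧸ N) :=
    { toSubring := (V.comap W.val.toRingHom).map σ.toRingHom
      mem_or_inv_mem' := fun r => by
        obtain ⟨f, rfl⟩ : ∃ f, σ f = r := Ideal.Quotient.mk_surjective r
        by_cases hf : σ f = 0
        · exact .inl (hf ▸ Subring.zero_mem _)
        · exact (hinv f).imp (fun h => ⟨f, h, rfl⟩) fun h => ⟨⟨_, hVW _ h⟩, h, (hσi f _ hf).symm⟩ }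
  have hO : ∀ f : W, σ f ∈ O ↔ (f : ℕ → F) ∈ V := fun f => ⟨fun ⟨g, hg, e⟩ => by
    simpa using sub_mem hg ((hσ g f).1 e 0), fun h => ⟨f, h, rfl⟩⟩
  have e1 : σ ⟨p, hVW p hp⟩ * σ ⟨_, hpi⟩ = 1 := by
    rw [← map_mul, ← map_one σ]
    exact congrArg σ (Subtype.ext (by simpa using pp 1))
  have e0 := left_ne_zero_of_mul_eq_one e1
  refine ⟨W ⧸ N, inferInstance, inferInstance, ⟨O, σ ⟨p, hVW p hp⟩, (hO _).2 hp, e0,
    fun h => h1 ((hO ⟨_, hpi⟩).1 (inv_eq_of_mul_eq_one_right e1 ▸ h)), fun r => ?_⟩, W, σ,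
    fun _ => Iff.rfl, fun f m => ?_, fun _ => rfl,
    fun f g h => (hσ f g).2 (hN0 _ (h.mono fun n hn => by simp [hn]))⟩
  · obtain ⟨⟨f, m, hm⟩, rfl⟩ : ∃ f, σ f = r := Ideal.Quotient.mk_surjective r
    exact ⟨m, by rw [← map_pow, ← map_mul, hO]; exact hm⟩
  · change σ f / σ ⟨p, hVW p hp⟩ ^ m ∈ O ↔ _
    obtain ⟨k, rfl | rfl⟩ := m.eq_nat_or_neg
    · rw [zpow_natCast, div_eq_mul_inv, ← inv_pow, inv_eq_of_mul_eq_one_right e1, ← map_pow,
        ← map_mul, hO]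
      simp [div_eq_mul_inv]
    · rw [zpow_neg, zpow_natCast, div_inv_eq_mul, ← map_pow, ← map_mul, hO]
      simp [div_eq_mul_inv]

end Pool.Agent.P.MP_2c7719_nt.Rz
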