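import Pool.Agent.P.MP_2c7719_nt.Rz.Hb
import Pool.Agent.P.MP_2c7719_nt.Win.ApxC

/-! Logarithmic derivatives at a generic point of a separated sequence are bounded. -/

namespace Pool.Agent.P.MP_2c7719_nt.Rz

open VF Win Polynomial

set_option linter.unusedSectionVars false

variable {K L : Type} [Field K] [CharZero K] [Field L] [CharZero L] [Algebra K L]

theorem sep {A : VF K} {B : ℤ} (m : ℕ) : ∀ P : K[X], P.natDegree ≤ m → ∀ S : Finset K, m < S.card →
    (∀ a ∈ S, ∀ b ∈ S, A.Dv B (a - b)⁻¹) →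
    ∃ a ∈ S, ∃ u, A.Dv B u ∧ (derivative P).eval a = P.eval a * u := by
  classical
  induction m with
  | zero =>
    intro P hP S hS _
    obtain ⟨a, ha⟩ := Finset.card_pos.1 hS
    exact ⟨a, ha, 0, dv0 _, by rw [eq_C_of_natDegree_le_zero hP]; simp⟩
  | succ m ih =>
    intro P hP S hS h
    obtain ⟨b, hb, hmin⟩ := S.exists_min_image (fun a => A.O.valuation (P.eval a))
      (Finset.card_pos.1 (by omega))
    obtain ⟨a, ha, u, hu, e⟩ := ih (P /ₘ (X - C b))
      (by rw [natDegree_divByMonic _ (monic_X_sub_C b), natDegree_X_sub_C]; omega) (S.erase b)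
      (by rw [Finset.card_erase_of_mem hb]; omega)
      fun a ha b hb => h a (Finset.mem_of_mem_erase ha) b (Finset.mem_of_mem_erase hb)
    obtain ⟨hab, ha⟩ := Finset.mem_erase.1 ha
    have e1 := X_sub_C_mul_divByMonic_eq_sub_modByMonic P b
    rw [modByMonic_X_sub_C_eq_C_eval] at e1
    have e2 := congrArg (eval a) e1
    have e3 := congrArg (fun p => eval a (derivative p)) e1
    simp only [derivative_mul, derivative_sub, derivative_X, derivative_C, sub_zero, eval_add,
      eval_mul, eval_sub, eval_X, eval_C, eval_one, e] at e2 e3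
    obtain ⟨o, ho⟩ : ∃ o : A.O, (o : K) * P.eval a = P.eval b :=
      (A.O.valuation_le_iff _ _).1 (hmin a ha)
    refine ⟨a, ha, (1 - o) * ((a - b)⁻¹ + u),
      Dv.omul (sub_mem (one_mem _) o.2) ((h a ha b hb).add hu), ?_⟩
    have := mul_inv_cancel₀ (sub_ne_zero.2 hab)
    linear_combination -e3 + ((a - b)⁻¹ + u) * (e2 + ho) - eval a (P /ₘ (X - C b)) * this

variable {A : VF L}

/-- the root separation property of `s` -/
def Sp (K : Type) [Field K] [Algebra K L] (A : VF L) (B : ℕ) (s : L) : Prop :=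
  ∀ P : K[X], ∃ u, A.Dv (-B) u ∧ aeval s (derivative P) = aeval s P * u

theorem Sp.iter {B : ℕ} {s : L} (h : Sp K A B s) (P : K[X]) (j : ℕ) :
    ∃ u, A.Dv (j * -B) u ∧ aeval s (derivative^[j] P) = aeval s P * u := by
  induction j with
  | zero => exact ⟨1, by simp [dv_zero_iff], by simp⟩
  | succ j ih =>
    obtain ⟨u, hu, e⟩ := ih
    obtain ⟨v, hv, e'⟩ := h (derivative^[j] P)
    exact ⟨u * v, by simpa [add_mul, add_comm] using hu.mul hv, by
      rw [Function.iterate_succ_apply', e', e, mul_assoc]⟩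

theorem Sp.trans {B : ℕ} {s : L} (h : Sp K A B s) : Transcendental K s := fun hs => by
  obtain ⟨u, -, e⟩ := h (minpoly K s)
  rw [minpoly.aeval, zero_mul] at e
  exact (Irreducible.separable (minpoly.irreducible hs.isIntegral)).aeval_derivative_ne_zero
    (minpoly.aeval K s) e

theorem stable {p : K} (hp : algebraMap K L p = A.π) (D : Derivation K L L) {ι : Type} [Finite ι]
    (g : ι → L) (hD : ∀ i, D (g i) ∈ Algebra.adjoin K (Set.range g)) :
    ∃ b : ℕ, ∀ w ∈ Algebra.adjoin K (Set.range g), ∃ c : ℕ, ∀ j : ℕ, A.Dv (-(c + j * b)) (D^[j] w) := by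
  obtain ⟨a, ha⟩ := exists_dv_fam (A := A) g
  let R := Subring.closure ({w | w ∈ A.O ∧ ∃ q, algebraMap K L q = w} ∪
    Set.range fun i => A.π ^ a * g i)
  have hπ : A.π ∈ R := Subring.subset_closure (.inl ⟨A.mem, p, hp⟩)
  have hR : ∀ w ∈ R, w ∈ A.O := fun w hw => (Subring.closure_le (t := A.O.toSubring)).2 (by
    rintro _ (h | ⟨i, rfl⟩)
    exacts [h.1, by simpa [Dv, mul_comm] using ha i]) hw
  have up : ∀ {c d : ℕ} {w}, c ≤ d → A.π ^ c * w ∈ R → A.π ^ d * w ∈ R := fun {c d w} h hw => by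
    obtain ⟨e, rfl⟩ := Nat.exists_eq_add_of_le' h
    rw [pow_add, mul_assoc]
    exact mul_mem (pow_mem hπ e) hw
  have h3 : ∀ w ∈ Algebra.adjoin K (Set.range g), ∃ c : ℕ, A.π ^ c * w ∈ R := fun w hw => by
    induction hw using Algebra.adjoin_induction with
    | mem w h => obtain ⟨i, rfl⟩ := h; exact ⟨a, Subring.subset_closure (.inr ⟨i, rfl⟩)⟩
    | algebraMap q =>
      obtain ⟨c, hc⟩ := A.arch (algebraMap K L q)
      exact ⟨c, Subring.subset_closure (.inl ⟨hc, p ^ c * q, by simp [hp]⟩)⟩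
    | add u v _ _ hu hv =>
      obtain ⟨c, hc⟩ := hu
      obtain ⟨d, hd⟩ := hv
      exact ⟨c + d, mul_add (A.π ^ _) u v ▸ add_mem (up (by omega) hc) (up (by omega) hd)⟩
    | mul u v _ _ hu hv =>
      obtain ⟨c, hc⟩ := hu
      obtain ⟨d, hd⟩ := hv
      exact ⟨c + d, by rw [pow_add, mul_mul_mul_comm]; exact mul_mem hc hd⟩
  have hc : ∀ (n : ℕ) (w : L), D (A.π ^ n * w) = A.π ^ n * D w := fun n w => by
    rw [← hp, ← map_pow, ← Algebra.smul_def, D.map_smul, Algebra.smul_def]
  choose k hk using fun i => h3 _ (hD i)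
  obtain ⟨b, hb⟩ := (Set.finite_range k).bddAbove
  have h2 : ∀ w ∈ R, A.π ^ b * D w ∈ R := fun w hw => by
    induction hw using Subring.closure_induction with
    | mem w h =>
      rcases h with ⟨-, q, rfl⟩ | ⟨i, rfl⟩
      · simp
      · rw [hc, ← mul_assoc, ← pow_add]
        exact up ((hb ⟨i, rfl⟩).trans (Nat.le_add_right _ _)) (hk i)
    | zero => simp
    | one => simp
    | add u v _ _ hu hv => rw [map_add, mul_add]; exact add_mem hu hv
    | neg u _ hu => rw [map_neg, mul_neg]; exact neg_mem hu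
    | mul u v h h' hu hv =>
      rw [D.leibniz, smul_eq_mul, smul_eq_mul, mul_add, mul_left_comm, mul_left_comm _ v]
      exact add_mem (mul_mem h hv) (mul_mem h' hu)
  refine ⟨b, fun w hw => ?_⟩
  obtain ⟨c, hc'⟩ := h3 w hw
  have : ∀ j : ℕ, A.π ^ (c + j * b) * D^[j] w ∈ R := fun j => by
    induction j with
    | zero => simpa using hc'
    | succ j ih =>
      have := h2 _ ih
      rwa [hc, ← mul_assoc, ← pow_add, ← Function.iterate_succ_apply' D,
        show b + (c + j * b) = c + (j + 1) * b by ring] at this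
  exact ⟨c, fun j => by
    have := hR _ (this j)
    rwa [Dv, zpow_neg, div_inv_eq_mul, mul_comm, ← Nat.cast_mul, ← Nat.cast_add, zpow_natCast]⟩

theorem logder2 {p : K} (hp : algebraMap K L p = A.π) (hq : ∀ n : ℕ, (n : L)⁻¹ ∈ A.O)
    (D : Derivation K L L) {ι : Type} [Finite ι] (g : ι → L)
    (hD : ∀ i, D (g i) ∈ Algebra.adjoin K (Set.range g)) {s : L} (hs : D s = 1) {B : ℕ}
    (hsp : Sp K A B s) (hsg : s ∈ Algebra.adjoin K (Set.range g))
    (halg : ∀ w ∈ Algebra.adjoin K (Set.range g), IsAlgebraic (Algebra.adjoin K {s}) w) :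
    ∃ B' : ℕ, ∀ w ∈ Algebra.adjoin K (Set.range g), A.Dv (-B') (D w / w) := by
  obtain ⟨b, hb⟩ := stable hp D g hD
  refine ⟨b + 1 + B, fun w hw => ?_⟩
  by_cases w0 : w = 0
  · simpa [w0] using dv0 _
  set δ : Derivation K L L := A.π ^ (b + 1 + B) • D with hδ
  have it : ∀ (j : ℕ) (w : L), δ^[j] w = (A.π ^ (b + 1 + B)) ^ j * D^[j] w := fun j w => by
    induction j with
    | zero => simp
    | succ j ih =>
      rw [Function.iterate_succ_apply', Function.iterate_succ_apply', ih, pow_succ, mul_assoc, ← hp,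
        ← map_pow, ← map_pow, ← Algebra.smul_def, δ.map_smul, Algebra.smul_def, map_pow _ p (b + 1 + B),
        hp]
      rfl
  have hπ : ∀ j : ℕ, A.Dv (j * (b + 1 + B : ℕ)) ((A.π ^ (b + 1 + B)) ^ j) := fun j => by
    simpa [← zpow_natCast A.π] using (dv_pi (A := A) (b + 1 + B : ℕ)).pow j
  have tail : ∀ w ∈ Algebra.adjoin K (Set.range g), ∃ N, ∀ j, N ≤ j →
      PowerSeries.coeff j (PowerSeries.C w⁻¹ * ex δ w) ∈ A.O := fun w hw => by
    obtain ⟨c, hc⟩ := hb w hw
    obtain ⟨m, hm⟩ := A.exists_dv w⁻¹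
    refine ⟨c + m, fun j hj => ?_⟩
    rw [PowerSeries.coeff_C_mul, ex, PowerSeries.coeff_mk, it]
    refine (hm.mul (Dv.omul (hq _) ((hπ j).mul (hc j)))).mem ?_
    have : (c + m : ℤ) ≤ j := by exact_mod_cast hj
    push_cast
    nlinarith [mul_nonneg (Int.natCast_nonneg j) (Int.natCast_nonneg B)]
  obtain ⟨t, htm, r, hr, e⟩ := (halg w hw).exists_nonzero_eq_adjoin_mul
    (mem_nonZeroDivisors_of_ne_zero w0)
  have htR : t ∈ Algebra.adjoin K (Set.range g) :=
    Algebra.adjoin_induction (p := fun t _ => t ∈ Algebra.adjoin K (Set.range g))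
      (fun _ h => Set.mem_singleton_iff.1 h ▸ hw)
      (fun a => Algebra.adjoin_le (Set.singleton_subset_iff.2 hsg) a.2)
      (fun _ _ _ _ => add_mem) (fun _ _ _ _ => mul_mem) htm
  obtain ⟨P, hP⟩ := (Algebra.adjoin_singleton_eq_range_aeval K s).le r.2
  replace hP : aeval s P = w * t := hP.trans e.symm
  have r0 : w * t ≠ 0 := fun h => hr (Subtype.ext (e.symm.trans h))
  obtain ⟨N, hN⟩ := tail w hw
  obtain ⟨N', hN'⟩ := tail t htR
  have := gauss A.O (N := N + N') (by simp [ex, w0]) (by simp [ex, right_ne_zero_of_mul r0])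
    (fun j hj => hN j (by omega)) (fun j hj => hN' j (by omega)) (fun j => by
      obtain ⟨u, hu, e⟩ := hsp.iter P j
      have : D^[j] (aeval s P) = aeval s (derivative^[j] P) := by
        clear e hu
        induction j with
        | zero => rfl
        | succ j ih =>
          rw [Function.iterate_succ_apply', Function.iterate_succ_apply', ih, D.map_aeval, hs,
            smul_eq_mul, mul_one]
      rw [mul_mul_mul_comm, ← map_mul, ← ex_mul, ← mul_inv, PowerSeries.coeff_C_mul, ex,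
        PowerSeries.coeff_mk, it, ← hP, this, e]
      convert (Dv.omul (hq j.factorial) ((hπ j).mul hu)).mem (by
        push_cast
        nlinarith [mul_nonneg (Int.natCast_nonneg j) (Int.natCast_nonneg b)]) using 1
      have := hP ▸ r0
      field_simp) 1
  rw [Dv, zpow_neg, zpow_natCast, div_inv_eq_mul]
  convert this using 1
  simp [ex, hδ, div_eq_inv_mul]
  ring

end Pool.Agent.P.MP_2c7719_nt.Rz
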