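import Mathlib

/-! Statements for the almost polynomial Sidon sequences `⌊n^α + g n + ξ n^β⌋`, `β > 1`. -/

namespace Pool.Agent.P.MP_2c7719_nt.Rz

open Filter MeasureTheory

/-- `a^s + b^s - c^s - d^s` for `q = (a, b, c, d)` -/
noncomputable def sg (s : ℝ) (q : Fin 4 → ℕ) : ℝ :=
  (q 0 : ℝ) ^ s + (q 1 : ℝ) ^ s - (q 2 : ℝ) ^ s - (q 3 : ℝ) ^ s

/-- `1 ≤ a < c ≤ d < b` -/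
def Od (q : Fin 4 → ℕ) : Prop := 1 ≤ q 0 ∧ q 0 < q 2 ∧ q 2 ≤ q 3 ∧ q 3 < q 1

/-- the weight: `c + d - a - b` if `d ≤ 2 a`, else `b - d` -/
def wt (q : Fin 4 → ℕ) : ℕ := if q 3 ≤ 2 * q 0 then q 2 + q 3 - (q 0 + q 1) else q 1 - q 3

/-- lower bound for the sum of `β`-th powers of a near solution -/
def S_A : Prop := ∀ β : ℝ, 1 < β → ∀ T : ℕ, ∀ α : ℝ, β + T + 3 ≤ α → ∃ c : ℝ, 0 < c ∧ ∃ N₀ : ℕ,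
  ∀ q, Od q → N₀ ≤ q 1 → |sg α q| ≤ (q 1 : ℝ) ^ T →
    q 1 ≤ 2 * q 3 ∧ 1 ≤ wt q ∧ c * (q 1 : ℝ) ^ (β - 1) * wt q ≤ |sg β q|

/-- paucity of near solutions in a small patch -/
def S_D : Prop := ∀ T : ℕ, ∃ α₀ : ℝ, ∀ α ≥ α₀, ∃ B : ℕ, ∃ ρ₀ : ℝ, ∀ ρ ≥ ρ₀,
  ∀ S : Finset (Fin 4 → ℕ),
    (∀ q ∈ S, Od q ∧ ρ ≤ q 3 ∧ (q 1 : ℝ) ≤ ρ ^ T ∧ |sg α q| ≤ ρ ^ T) →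
    (∀ q ∈ S, ∀ q' ∈ S, ∀ i, |(q i : ℝ) / q' i - 1| ≤ 2 / ρ ^ 2) →
    ∀ i : Fin 4, i ≠ 3 → (i = 0 → ∀ q ∈ S, q 3 ≤ 2 * q 0) →
      (S.image fun q => (q i : ℚ) / q 3).card ≤ B

/-- the weighted count of near solutions in a dyadic block -/
def S_B : Prop := ∀ (T : ℕ) (ε : ℝ), 0 < ε → ∃ α₀ : ℝ, ∀ α ≥ α₀, ∃ m₀ : ℕ, ∀ m ≥ m₀,
  ∀ S : Finset (Fin 4 → ℕ),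
    (∀ q ∈ S, Od q ∧ 2 ^ m ≤ q 1 ∧ q 1 < 2 ^ (m + 1) ∧ q 1 ≤ 2 * q 3 ∧ 1 ≤ wt q ∧
      |sg α q| ≤ (q 1 : ℝ) ^ T) →
    ∑ q ∈ S, ((wt q : ℝ))⁻¹ ≤ (2 : ℝ) ^ (ε * m)

/-- the theorem -/
def S_Main : Prop := ∀ β γ : ℝ, 1 < β → ∃ α₀ : ℝ, ∀ α ≥ α₀, ∀ g : ℕ → ℝ,
  (∀ᶠ n : ℕ in atTop, |g n| ≤ (n : ℝ) ^ γ) → ∀ᵐ ξ : ℝ, ∃ n₀ : ℕ, ∀ a b c d : ℕ,
    n₀ ≤ a → a ≤ b → n₀ ≤ c → c ≤ d →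
    ⌊(a : ℝ) ^ α + g a + ξ * (a : ℝ) ^ β⌋ + ⌊(b : ℝ) ^ α + g b + ξ * (b : ℝ) ^ β⌋ =
      ⌊(c : ℝ) ^ α + g c + ξ * (c : ℝ) ^ β⌋ + ⌊(d : ℝ) ^ α + g d + ξ * (d : ℝ) ^ β⌋ →
    a = c ∧ b = d

end Pool.Agent.P.MP_2c7719_nt.Rz
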